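import Mathlib

/-!
# The synchronizing ratio of digraphs with at most one balanced partition
-/

set_option autoImplicit false

open Finset

namespace Pool.Agent.Helper695.SR

universe u

variable {V : Type u} {k : ℕ}

/-- The transition function of the automaton given by a digraph and a coloring. The outgoing edges
of the vertex `v` are `(v, i)`, `i : Fin k`, the edge `(v, i)` ends in `out v i` and has the color
`c v i`. -/
def step (out : V → Fin k → V) (c : V → Equiv.Perm (Fin k)) (v : V) (a : Fin k) : V :=
  out v ((c v).symm a)

/-- The action of words. -/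
def run (out : V → Fin k → V) (c : V → Equiv.Perm (Fin k)) (x : List (Fin k)) (v : V) : V :=
  x.foldl (step out c) v

/-- The coloring `c` is synchronizing: some word sends all states to one state. -/
def Synchronizing (out : V → Fin k → V) (c : V → Equiv.Perm (Fin k)) : Prop :=
  ∃ (x : List (Fin k)) (p : V), ∀ q, run out c x q = p

/-- There is a directed walk of length `n` from `u` to `v`. -/
def Walk (out : V → Fin k → V) : ℕ → V → V → Prop
  | 0, u, v => u = v
  | n + 1, u, v => ∃ i, Walk out n (out u i) v

/-- The digraph is strongly connected, and the greatest common divisor of the lengths of its closed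
walks is `1`. -/
def Primitive (out : V → Fin k → V) : Prop :=
  (∀ u v, ∃ n, Walk out n u v) ∧ ∀ d : ℕ, (∀ n v, Walk out n v v → d ∣ n) → d = 1

open Classical in
/-- The number of the synchronizing colorings divided by the number `(k!) ^ n` of all colorings. -/
noncomputable def ratio [Fintype V] (out : V → Fin k → V) : ℝ :=
  (Nat.card {c : V → Equiv.Perm (Fin k) // Synchronizing out c} : ℝ) /
    (k.factorial : ℝ) ^ Fintype.card V

open Classical in
/-- `w` is a stationary weight: for every vertex `u` the sum of the weights of the initial vertices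
of the edges ending in `u` is `k` times the weight of `u`. -/
def Stationary [Fintype V] (out : V → Fin k → V) (w : V → ℕ) : Prop :=
  ∀ u, ∑ v, ∑ i, (if out v i = u then w v else 0) = k * w u

open Classical in
/-- The partition `s` has at least two classes, and all its classes have the same weight. -/
def Balanced [Fintype V] (w : V → ℕ) (s : Setoid V) : Prop :=
  (∃ M, ∀ v, ∑ u, (if s.r u v then w u else 0) = M) ∧ ∃ u v, ¬ s.r u v

/-! ### Words -/

theorem run_nil (out : V → Fin k → V) (c : V → Equiv.Perm (Fin k)) (v : V) :
    run out c [] v = v := rfl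

theorem run_cons (out : V → Fin k → V) (c : V → Equiv.Perm (Fin k)) (a : Fin k)
    (x : List (Fin k)) (v : V) : run out c (a :: x) v = run out c x (step out c v a) := rfl

theorem run_append (out : V → Fin k → V) (c : V → Equiv.Perm (Fin k)) (x y : List (Fin k))
    (v : V) : run out c (x ++ y) v = run out c y (run out c x v) := by
  unfold run
  rw [List.foldl_append]

theorem reach (out : V → Fin k → V) (c : V → Equiv.Perm (Fin k)) :
    ∀ (n : ℕ) (u v : V), Walk out n u v → ∃ x, run out c x u = v := by
  intro n
  induction n with
  | zero => intro u v h; exact ⟨[], h⟩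
  | succ n ih =>
    intro u v h
    obtain ⟨i, hi⟩ := h
    obtain ⟨x, hx⟩ := ih _ _ hi
    refine ⟨c u i :: x, ?_⟩
    rw [run_cons]
    have : step out c u (c u i) = out u i := by
      unfold step
      rw [Equiv.symm_apply_apply]
    rw [this]
    exact hx

section fin
variable [Fintype V]

open Classical in
theorem pos_of (out : V → Fin k → V) (hp : ∀ u v, ∃ n, Walk out n u v) (w : V → ℕ)
    (hw : Stationary out w) (hne : w ≠ 0) (v : V) : 0 < w v := by
  obtain ⟨u, hu⟩ : ∃ u, w u ≠ 0 := by
    by_contra h
    push Not at h
    exact hne (funext h)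
  have key : ∀ (n : ℕ) (u v : V), Walk out n u v → 0 < w u → 0 < w v := by
    intro n
    induction n with
    | zero => intro u v h h0; rw [← show u = v from h]; exact h0
    | succ n ih =>
      intro u v h h0
      obtain ⟨i, hi⟩ := h
      apply ih _ _ hi
      have h1 := hw (out u i)
      have h2 : w u ≤ ∑ v, ∑ j, (if out v j = out u i then w v else 0) := by
        calc w u = (if out u i = out u i then w u else 0) := by simp
          _ ≤ ∑ j, (if out u j = out u i then w u else 0) :=
              Finset.single_le_sum (f := fun j => if out u j = out u i then w u else 0)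
                (fun _ _ => Nat.zero_le _) (Finset.mem_univ i)
          _ ≤ _ := Finset.single_le_sum (f := fun v => ∑ j, (if out v j = out u i then w v else 0))
                (fun _ _ => Nat.zero_le _) (Finset.mem_univ u)
      rw [h1] at h2
      by_contra h3
      have h4 : w (out u i) = 0 := by omega
      rw [h4] at h2
      omega
  obtain ⟨n, hn⟩ := hp u v
  exact key n u v hn (Nat.pos_of_ne_zero hu)

open Classical in
/-- The weight of the class of the states which the word `x` sends to `q`. -/
noncomputable def cw (out : V → Fin k → V) (c : V → Equiv.Perm (Fin k)) (w : V → ℕ)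
    (x : List (Fin k)) (q : V) : ℕ :=
  ∑ v, (if run out c x v = q then w v else 0)

open Classical in
theorem sum_cw (out : V → Fin k → V) (c : V → Equiv.Perm (Fin k)) (w : V → ℕ)
    (hw : Stationary out w) (x : List (Fin k)) (q : V) :
    ∑ a, cw out c w (a :: x) q = k * cw out c w x q := by
  have h1 : ∀ v, ∑ a, (if run out c (a :: x) v = q then w v else 0)
      = ∑ i, (if run out c x (out v i) = q then w v else 0) := by
    intro v
    rw [← Equiv.sum_comp (c v)]
    apply Finset.sum_congr rfl
    intro i _
    rw [run_cons]
    unfold step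
    rw [Equiv.symm_apply_apply]
  unfold cw
  rw [Finset.sum_comm, Finset.sum_congr rfl (fun v _ => h1 v)]
  have h2 : ∀ v, ∀ i, (if run out c x (out v i) = q then w v else 0)
      = ∑ u, (if run out c x u = q then (if out v i = u then w v else 0) else 0) := by
    intro v i
    rw [Finset.sum_eq_single (out v i)]
    · simp
    · intro b _ hb
      rw [if_neg (Ne.symm hb)]
      simp
    · intro h
      exact absurd (Finset.mem_univ _) h
  calc ∑ v, ∑ i, (if run out c x (out v i) = q then w v else 0)
      = ∑ v, ∑ i, ∑ u, (if run out c x u = q then (if out v i = u then w v else 0) else 0) := by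
        apply Finset.sum_congr rfl
        intro v _
        apply Finset.sum_congr rfl
        intro i _
        exact h2 v i
    _ = ∑ u, ∑ v, ∑ i, (if run out c x u = q then (if out v i = u then w v else 0) else 0) := by
        rw [Finset.sum_comm]
        rw [Finset.sum_congr rfl (fun v _ => Finset.sum_comm)]
        rw [Finset.sum_comm]
        apply Finset.sum_congr rfl
        intro u _
        rw [Finset.sum_comm]
    _ = ∑ u, (if run out c x u = q then k * w u else 0) := by
        apply Finset.sum_congr rfl
        intro u _
        by_cases hu : run out c x u = q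
        · simp only [hu, if_true]
          exact hw u
        · simp only [hu, if_false, Finset.sum_const_zero]
    _ = k * ∑ u, (if run out c x u = q then w u else 0) := by
        rw [Finset.mul_sum]
        apply Finset.sum_congr rfl
        intro u _
        split_ifs <;> simp

theorem cw_append (out : V → Fin k → V) (c : V → Equiv.Perm (Fin k)) (w : V → ℕ)
    (hw : Stationary out w) (M : ℕ) (hM : ∀ x q, cw out c w x q ≤ M) (x : List (Fin k)) (q : V)
    (hx : cw out c w x q = M) (y : List (Fin k)) : cw out c w (y ++ x) q = M := by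
  have key : ∀ (x : List (Fin k)), cw out c w x q = M → ∀ a, cw out c w (a :: x) q = M := by
    intro x hx a
    by_contra h
    have hlt : cw out c w (a :: x) q < M := lt_of_le_of_ne (hM _ _) h
    have h1 : ∑ a, cw out c w (a :: x) q < ∑ _a : Fin k, M :=
      Finset.sum_lt_sum (fun b _ => hM _ _) ⟨a, Finset.mem_univ a, hlt⟩
    rw [sum_cw out c w hw, hx] at h1
    simp at h1
  induction y with
  | nil => exact hx
  | cons a y ih => exact key _ ih a

theorem exists_max (out : V → Fin k → V) (c : V → Equiv.Perm (Fin k)) (w : V → ℕ) [Nonempty V] :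
    ∃ x q, ∀ y p, cw out c w y p ≤ cw out c w x q := by
  classical
  let S : Set ℕ := {m | ∃ x q, cw out c w x q = m}
  have hne : S.Nonempty := ⟨_, [], Classical.arbitrary V, rfl⟩
  have hb : BddAbove S := by
    refine ⟨∑ v, w v, ?_⟩
    rintro m ⟨x, q, rfl⟩
    unfold cw
    apply Finset.sum_le_sum
    intro v _
    split_ifs <;> simp
  obtain ⟨x, q, hxq⟩ := Nat.sSup_mem hne hb
  refine ⟨x, q, fun y p => ?_⟩
  rw [hxq]
  exact le_csSup hb ⟨y, p, rfl⟩

open Classical in
/-- The rank of a word. -/
noncomputable def rk (out : V → Fin k → V) (c : V → Equiv.Perm (Fin k)) (x : List (Fin k)) : ℕ :=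
  (Finset.univ.image (run out c x)).card

open Classical in
theorem rk_append_le (out : V → Fin k → V) (c : V → Equiv.Perm (Fin k)) (x y : List (Fin k)) :
    rk out c (x ++ y) ≤ rk out c x := by
  unfold rk
  have : Finset.univ.image (run out c (x ++ y)) = (Finset.univ.image (run out c x)).image (run out c y) := by
    rw [Finset.image_image]
    congr 1
    funext v
    exact run_append out c x y v
  rw [this]
  exact Finset.card_image_le

open Classical in
/-- Friedman's theorem: there is a word of minimal rank all of whose classes have the maximal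
weight. -/
theorem structure_word (out : V → Fin k → V) (hp : ∀ u v, ∃ n, Walk out n u v)
    (c : V → Equiv.Perm (Fin k)) (w : V → ℕ) (hw : Stationary out w) (hpos : ∀ v, 0 < w v)
    [Nonempty V] :
    ∃ (x : List (Fin k)) (M : ℕ), (∀ y p, cw out c w y p ≤ M) ∧
      ∀ v, cw out c w x (run out c x v) = M := by
  obtain ⟨u0, q0, hmax⟩ := exists_max out c w
  obtain ⟨x, -, hx⟩ := WellFounded.has_min (measure (rk out c)).wf Set.univ ⟨[], trivial⟩
  have hx' : ∀ y, rk out c x ≤ rk out c y := fun y => not_lt.mp (hx y trivial)
  set M := cw out c w u0 q0 with hM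
  have hMpos : 0 < M := by
    have h1 := hmax [] q0
    have h2 : w q0 ≤ cw out c w [] q0 := by
      unfold cw
      calc w q0 = (if run out c [] q0 = q0 then w q0 else 0) := by simp [run_nil]
        _ ≤ _ := Finset.single_le_sum (f := fun v => if run out c [] v = q0 then w v else 0)
              (fun _ _ => Nat.zero_le _) (Finset.mem_univ q0)
    exact lt_of_lt_of_le (hpos q0) (h2.trans h1)
  set x1 := x ++ u0 with hx1
  have hmin : ∀ y, rk out c x1 ≤ rk out c y := fun y => (rk_append_le out c x u0).trans (hx' y)
  have hq0 : cw out c w x1 q0 = M := cw_append out c w hw M hmax u0 q0 rfl x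
  obtain ⟨v0, hv0⟩ : ∃ v0, run out c x1 v0 = q0 := by
    by_contra h
    push Not at h
    have : cw out c w x1 q0 = 0 := by
      unfold cw
      apply Finset.sum_eq_zero
      intro v _
      rw [if_neg (h v)]
    omega
  refine ⟨x1, M, hmax, fun v1 => ?_⟩
  set p := run out c x1 v1 with hpdef
  obtain ⟨n, hn⟩ := hp p v0
  obtain ⟨z, hz⟩ := reach out c n p v0 hn
  have hinj : Set.InjOn (run out c (z ++ x1)) (Finset.univ.image (run out c x1) : Finset V) := by
    apply Finset.injOn_of_card_image_eq
    apply le_antisymm Finset.card_image_le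
    have h1 := hmin (x1 ++ (z ++ x1))
    unfold rk at h1
    have h2 : Finset.univ.image (run out c (x1 ++ (z ++ x1)))
        = (Finset.univ.image (run out c x1)).image (run out c (z ++ x1)) := by
      rw [Finset.image_image]
      congr 1
      funext v
      exact run_append out c x1 (z ++ x1) v
    rw [h2] at h1
    exact h1
  have hgp : run out c (z ++ x1) p = q0 := by
    rw [run_append, hz, hv0]
  have h3 : cw out c w ((x1 ++ z) ++ x1) q0 = M := cw_append out c w hw M hmax x1 q0 hq0 _
  rw [← h3]
  unfold cw
  apply Finset.sum_congr rfl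
  intro v _
  have h4 : run out c (x1 ++ z ++ x1) v = run out c (z ++ x1) (run out c x1 v) := by
    rw [List.append_assoc, run_append]
  rw [h4]
  have h5 : (run out c x1 v = p) ↔ (run out c (z ++ x1) (run out c x1 v) = q0) := by
    constructor
    · intro h
      rw [h, hgp]
    · intro h
      apply hinj
      · simp
      · rw [hpdef]; simp
      · rw [h, hgp]
  simp only [h5]

open Classical in
theorem sum_run (out : V → Fin k → V) (c : V → Equiv.Perm (Fin k)) (w : V → ℕ)
    (y : List (Fin k)) (T : V → Prop) :
    ∑ u, (if T (run out c y u) then w u else 0) = ∑ q, (if T q then cw out c w y q else 0) := by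
  unfold cw
  have h1 : ∀ u, (if T (run out c y u) then w u else 0)
      = ∑ q, (if T q then (if run out c y u = q then w u else 0) else 0) := by
    intro u
    rw [Finset.sum_eq_single (run out c y u)]
    · simp
    · intro q _ hq
      rw [if_neg (Ne.symm hq)]
      simp
    · intro h
      exact absurd (Finset.mem_univ _) h
  rw [Finset.sum_congr rfl (fun u _ => h1 u), Finset.sum_comm]
  apply Finset.sum_congr rfl
  intro q _
  by_cases hq : T q
  · simp [hq]
  · simp [hq]

/-- If a coloring is not synchronizing then the coarsest balanced partition is preserved by all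
colors in the strong sense. -/
theorem invariant_partition (out : V → Fin k → V) (hp : ∀ u v, ∃ n, Walk out n u v)
    (c : V → Equiv.Perm (Fin k)) (w : V → ℕ) (hw : Stationary out w) (hpos : ∀ v, 0 < w v)
    (hu : ∀ s₀ : Setoid V, Balanced w s₀ →
      ∃ Q : Setoid V, Balanced w Q ∧ ∀ s, Balanced w s → ∀ u v, s.r u v → Q.r u v)
    (hc : ¬ Synchronizing out c) [Nonempty V] :
    ∃ Q : Setoid V, Balanced w Q ∧ (∀ s, Balanced w s → ∀ u v, s.r u v → Q.r u v) ∧
      ∀ a u v, Q.r u v ↔ Q.r (step out c u a) (step out c v a) := by
  classical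
  obtain ⟨x, M, hM, hx⟩ := structure_word out hp c w hw hpos
  have hbal : Balanced w (Setoid.ker (run out c x)) := by
    refine ⟨⟨M, fun v => ?_⟩, ?_⟩
    · rw [← hx v]
      unfold cw
      apply Finset.sum_congr rfl
      intro u _
      have : (Setoid.ker (run out c x)).r u v ↔ run out c x u = run out c x v := Iff.rfl
      simp only [this]
    · by_contra h
      push Not at h
      apply hc
      refine ⟨x, run out c x (Classical.arbitrary V), fun q => ?_⟩
      exact h q _
  obtain ⟨Q, hQ, hmax⟩ := hu _ hbal
  have hker : ∀ u v, run out c x u = run out c x v → Q.r u v := fun u v h => hmax _ hbal u v h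
  have hcw : ∀ q a, cw out c w (a :: x) q = cw out c w x q := by
    intro q a
    by_cases hq : ∃ v, run out c x v = q
    · obtain ⟨v, rfl⟩ := hq
      rw [hx v]
      exact cw_append out c w hw M hM x _ (hx v) [a]
    · push Not at hq
      have h1 : cw out c w x q = 0 := by
        unfold cw
        apply Finset.sum_eq_zero
        intro v _
        rw [if_neg (hq v)]
      have h2 : cw out c w (a :: x) q = 0 := by
        unfold cw
        apply Finset.sum_eq_zero
        intro v _
        rw [run_cons, if_neg (hq _)]
      rw [h1, h2]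
  -- saturated sets and their preimages have the same weight
  have hsat : ∀ (T : V → Prop) (a : Fin k), (∀ u v, Q.r u v → (T u ↔ T v)) →
      ∑ u, (if T (step out c u a) then w u else 0) = ∑ u, (if T u then w u else 0) := by
    intro T a hT
    obtain ⟨T', hT'⟩ : ∃ T' : V → Prop, ∀ u, T u ↔ T' (run out c x u) := by
      refine ⟨fun q => ∃ u, run out c x u = q ∧ T u, fun u => ⟨fun h => ⟨u, rfl, h⟩, ?_⟩⟩
      rintro ⟨v, hv, h⟩
      exact (hT u v (hker u v hv.symm)).mpr h
    calc ∑ u, (if T (step out c u a) then w u else 0)
        = ∑ u, (if T' (run out c (a :: x) u) then w u else 0) := by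
          apply Finset.sum_congr rfl
          intro u _
          have := hT' (step out c u a)
          rw [← run_cons] at this
          simp only [this]
      _ = ∑ q, (if T' q then cw out c w (a :: x) q else 0) := sum_run out c w (a :: x) T'
      _ = ∑ q, (if T' q then cw out c w x q else 0) := by
          apply Finset.sum_congr rfl
          intro q _
          rw [hcw]
      _ = ∑ u, (if T' (run out c x u) then w u else 0) := (sum_run out c w x T').symm
      _ = ∑ u, (if T u then w u else 0) := by
          apply Finset.sum_congr rfl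
          intro u _
          have := hT' u
          simp only [← this]
  obtain ⟨⟨MQ, hMQ⟩, ⟨u1, v1, huv1⟩⟩ := id hQ
  refine ⟨Q, hQ, hmax, fun a => ?_⟩
  let Qa : Setoid V := Setoid.comap (fun u => step out c u a) Q
  have hQa : ∀ u v, Qa.r u v ↔ Q.r (step out c u a) (step out c v a) := fun u v => Iff.rfl
  have hQaM : ∀ v, ∑ u, (if Qa.r u v then w u else 0) = MQ := by
    intro v
    rw [← hMQ (step out c v a)]
    have h1 := hsat (fun u => Q.r u (step out c v a)) a (fun u u' h =>
      ⟨fun h' => Q.trans (Q.symm h) h', fun h' => Q.trans h h'⟩)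
    simp only [hQa]
    exact h1
  have hbQa : Balanced w Qa := by
    refine ⟨⟨MQ, hQaM⟩, ?_⟩
    by_contra h
    push Not at h
    -- then the class of `step v1 a` is everything
    have h1 : ∑ u, (if Q.r u (step out c v1 a) then w u else 0) = ∑ u, w u := by
      rw [hMQ, ← hQaM v1]
      apply Finset.sum_congr rfl
      intro u _
      rw [if_pos (h u v1)]
    have h2 : ∀ u, Q.r u (step out c v1 a) := by
      intro u
      by_contra hcon
      have h3 : ∑ u, (if Q.r u (step out c v1 a) then w u else 0) < ∑ u, w u := by
        apply Finset.sum_lt_sum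
        · intro i _
          split_ifs <;> simp
        · refine ⟨u, Finset.mem_univ u, ?_⟩
          rw [if_neg hcon]
          exact hpos u
      omega
    exact huv1 (Q.trans (h2 u1) (Q.symm (h2 v1)))
  have hle := hmax Qa hbQa
  intro u v
  constructor
  · intro h
    by_contra hcon
    have h1 : ∑ z, (if Qa.r z v then w z else 0) < ∑ z, (if Q.r z v then w z else 0) := by
      apply Finset.sum_lt_sum
      · intro z _
        by_cases hz : Qa.r z v
        · rw [if_pos hz, if_pos (hle z v hz)]
        · rw [if_neg hz]
          exact Nat.zero_le _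
      · refine ⟨u, Finset.mem_univ u, ?_⟩
        rw [if_pos h, if_neg (fun h' => hcon ((hQa u v).mp h'))]
        exact hpos u
    rw [hQaM, hMQ] at h1
    exact lt_irrefl _ h1
  · intro h
    exact hle u v ((hQa u v).mpr h)

/-! ### Counting -/

open Classical in
/-- If all edges from a vertex end in one class then the digraph is not primitive. -/
theorem exists_mixed (hk : 0 < k) (out : V → Fin k → V) (hp : Primitive out) (s : Setoid V)
    (hs : ∃ u v, ¬ s.r u v) (c : V → Equiv.Perm (Fin k))
    (hc : ∀ a u v, s.r u v ↔ s.r (step out c u a) (step out c v a)) :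
    ∃ u t, (∃ i, s.r (out u i) t) ∧ ∃ i, ¬ s.r (out u i) t := by
  by_contra hcon
  push Not at hcon
  obtain ⟨u0, v0, huv⟩ := hs
  let i0 : Fin k := ⟨0, hk⟩
  have hall : ∀ u i j, s.r (out u i) (out u j) := by
    intro u i j
    exact hcon u (out u j) ⟨j, s.refl _⟩ i
  have hmap : ∀ u v, s.r u v → s.r (out u i0) (out v i0) := by
    intro u v h
    have h1 := (hc i0 u v).mp h
    have h2 : s.r (out u i0) (step out c u i0) := hall u _ _
    have h3 : s.r (step out c v i0) (out v i0) := hall v _ _
    exact s.trans (s.trans h2 h1) h3
  let F : Quotient s → Quotient s := Quotient.map (fun u => out u i0) hmap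
  have hF : ∀ u i, F (Quotient.mk s u) = Quotient.mk s (out u i) := by
    intro u i
    exact Quotient.sound (hall u i0 i)
  have hW : ∀ (n : ℕ) (u v : V), Walk out n u v → F^[n] (Quotient.mk s u) = Quotient.mk s v := by
    intro n
    induction n with
    | zero => intro u v h; rw [show u = v from h]; rfl
    | succ n ih =>
      intro u v h
      obtain ⟨i, hi⟩ := h
      rw [Function.iterate_succ_apply, hF u i]
      exact ih _ _ hi
  have hd : Function.minimalPeriod F (Quotient.mk s u0) = 1 := by
    apply hp.2
    intro n v hn
    apply Function.IsPeriodicPt.minimalPeriod_dvd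
    obtain ⟨m, hm⟩ := hp.1 v u0
    have h1 := hW m v u0 hm
    have h2 := hW n v v hn
    show F^[n] (Quotient.mk s u0) = Quotient.mk s u0
    rw [← h1, ← Function.iterate_add_apply, add_comm, Function.iterate_add_apply, h2]
  rw [Function.minimalPeriod_eq_one_iff_isFixedPt] at hd
  obtain ⟨m, hm⟩ := hp.1 u0 v0
  have h3 := hW m u0 v0 hm
  rw [(hd.iterate m).eq] at h3
  exact huv (Quotient.exact h3)

open Classical in
/-- The color set of the edges from `u` to the class of `t`. -/
noncomputable def colset (out : V → Fin k → V) (s : Setoid V) (u t : V)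
    (c : V → Equiv.Perm (Fin k)) : Finset (Fin k) :=
  Finset.univ.filter fun a => s.r (step out c u a) t

/-- Color sets are determined by the coloring of the other classes. -/
theorem colset_eq (out : V → Fin k → V) (s : Setoid V) (u t : V)
    (c c' : V → Equiv.Perm (Fin k))
    (hc : ∀ a u v, s.r u v ↔ s.r (step out c u a) (step out c v a))
    (hc' : ∀ a u v, s.r u v ↔ s.r (step out c' u a) (step out c' v a))
    (h : ∀ v, v ≠ u → c v = c' v) : colset out s u t c = colset out s u t c' := by
  classical
  have key : ∀ (c c' : V → Equiv.Perm (Fin k)),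
      (∀ a u v, s.r u v ↔ s.r (step out c u a) (step out c v a)) →
      (∀ a u v, s.r u v ↔ s.r (step out c' u a) (step out c' v a)) →
      (∀ v, v ≠ u → c v = c' v) → ∀ a, s.r (step out c u a) t → s.r (step out c' u a) t := by
    intro c c' hc hc' h a ha
    -- the color `a` acts bijectively on the classes
    let G : Quotient s → Quotient s :=
      Quotient.map (fun v => step out c' v a) (fun x y hxy => (hc' a x y).mp hxy)
    have hG : Function.Injective G := by
      intro x y
      induction x using Quotient.inductionOn with | _ x => ?_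
      induction y using Quotient.inductionOn with | _ y => ?_
      intro hxy
      exact Quotient.sound ((hc' a x y).mpr (Quotient.exact hxy))
    have : Finite (Quotient s) := Quotient.finite s
    have hsurj : Function.Surjective G := Finite.surjective_of_injective hG
    obtain ⟨q, hq⟩ := hsurj (Quotient.mk s t)
    induction q using Quotient.inductionOn with | _ v => ?_
    have hv : s.r (step out c' v a) t := Quotient.exact hq
    by_cases hvu : s.r v u
    · exact s.trans (s.symm ((hc' a v u).mp hvu)) hv
    · exfalso
      have hne : v ≠ u := fun h0 => hvu (h0 ▸ s.refl v)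
      have h1 : step out c v a = step out c' v a := by
        unfold step
        rw [h v hne]
      rw [← h1] at hv
      exact hvu ((hc a v u).mpr (s.trans hv (s.symm ha)))
  ext a
  unfold colset
  simp only [Finset.mem_filter, Finset.mem_univ, true_and]
  exact ⟨key c c' hc hc' h a, key c' c hc' hc (fun v hv => (h v hv).symm) a⟩

end fin

open Classical in
/-- `k` involutions of the colors which send the set `A` to `k` different sets. -/
noncomputable def tau (A : Finset (Fin k)) (a0 b0 j : Fin k) : Equiv.Perm (Fin k) :=
  if j ∈ A then Equiv.swap j b0 else if j = b0 then 1 else Equiv.swap a0 j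

theorem tau_tau (A : Finset (Fin k)) (a0 b0 j x : Fin k) :
    tau A a0 b0 j (tau A a0 b0 j x) = x := by
  unfold tau
  split_ifs
  · exact Equiv.swap_apply_self ..
  · rfl
  · exact Equiv.swap_apply_self ..

theorem tau_inj (A : Finset (Fin k)) (a0 b0 : Fin k) (ha : a0 ∈ A) (hb : b0 ∉ A) (i j : Fin k)
    (h : ∀ x, tau A a0 b0 i x ∈ A ↔ tau A a0 b0 j x ∈ A) : i = j := by
  have key : ∀ i j, (∀ x, tau A a0 b0 i x ∈ A ↔ tau A a0 b0 j x ∈ A) → i ∈ A → i = j := by
    intro i j h hi
    by_contra hne
    have hib : i ≠ b0 := fun h0 => hb (h0 ▸ hi)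
    by_cases hj : j ∈ A
    · have h1 := h i
      unfold tau at h1
      rw [if_pos hi, if_pos hj, Equiv.swap_apply_left, Equiv.swap_apply_of_ne_of_ne hne hib] at h1
      exact hb (h1.mpr hi)
    · by_cases hjb : j = b0
      · have h1 := h i
        unfold tau at h1
        rw [if_pos hi, if_neg hj, if_pos hjb, Equiv.swap_apply_left] at h1
        exact hb (h1.mpr hi)
      · have h1 := h b0
        unfold tau at h1
        have hab : b0 ≠ a0 := fun h0 => hb (h0 ▸ ha)
        rw [if_pos hi, if_neg hj, if_neg hjb, Equiv.swap_apply_right,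
          Equiv.swap_apply_of_ne_of_ne hab (Ne.symm hjb)] at h1
        exact hb (h1.mp hi)
  by_cases hi : i ∈ A
  · exact key i j h hi
  · by_cases hj : j ∈ A
    · exact (key j i (fun x => (h x).symm) hj).symm
    · by_contra hne
      have key2 : ∀ i j, (∀ x, tau A a0 b0 i x ∈ A ↔ tau A a0 b0 j x ∈ A) → i ∉ A → j ∉ A →
          i ≠ j → i ≠ b0 → False := by
        intro i j h hi hj hne hib
        have hia : i ≠ a0 := fun h0 => hi (h0 ▸ ha)
        have h1 := h i
        by_cases hjb : j = b0
        · unfold tau at h1
          rw [if_neg hi, if_neg hib, if_neg hj, if_pos hjb, Equiv.swap_apply_right] at h1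
          exact hi (h1.mp ha)
        · unfold tau at h1
          rw [if_neg hi, if_neg hib, if_neg hj, if_neg hjb, Equiv.swap_apply_right,
            Equiv.swap_apply_of_ne_of_ne hia hne] at h1
          exact hi (h1.mp ha)
      by_cases hib : i = b0
      · exact key2 j i (fun x => (h x).symm) hj hi (Ne.symm hne) (fun h0 => hne (hib.trans h0.symm))
      · exact key2 i j h hi hj hne hib

section fin2
variable [Fintype V]

open Classical in
/-- At most the fraction `1 / k` of the colorings preserves the partition `s` strongly. -/
theorem count_inv (hk : 0 < k) (out : V → Fin k → V) (hp : Primitive out) (s : Setoid V)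
    (hs : ∃ u v, ¬ s.r u v) :
    Nat.card {c : V → Equiv.Perm (Fin k) //
      ∀ a u v, s.r u v ↔ s.r (step out c u a) (step out c v a)} * k
      ≤ k.factorial ^ Fintype.card V := by
  by_cases hN : Nonempty {c : V → Equiv.Perm (Fin k) //
      ∀ a u v, s.r u v ↔ s.r (step out c u a) (step out c v a)}
  swap
  · rw [not_nonempty_iff] at hN
    rw [Nat.card_of_isEmpty, zero_mul]
    exact Nat.zero_le _
  obtain ⟨⟨c0, hc0⟩⟩ := hN
  obtain ⟨u, t, ⟨i1, hi1⟩, ⟨i2, hi2⟩⟩ := exists_mixed hk out hp s hs c0 hc0
  -- choose the two colors
  let A : (V → Equiv.Perm (Fin k)) → Finset (Fin k) := colset out s u t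
  have hA : ∀ c a, a ∈ A c ↔ s.r (step out c u a) t := by
    intro c a
    show a ∈ colset out s u t c ↔ _
    unfold colset
    simp
  have hne : ∀ c, ∃ a, a ∈ A c := by
    intro c
    refine ⟨c u i1, ?_⟩
    rw [hA]
    unfold step
    rw [Equiv.symm_apply_apply]
    exact hi1
  have hnu : ∀ c, ∃ a, a ∉ A c := by
    intro c
    refine ⟨c u i2, ?_⟩
    rw [hA]
    unfold step
    rw [Equiv.symm_apply_apply]
    exact hi2
  let a0 : Finset (Fin k) → Fin k := fun B => if h : ∃ a, a ∈ B then h.choose else ⟨0, hk⟩
  let b0 : Finset (Fin k) → Fin k := fun B => if h : ∃ a, a ∉ B then h.choose else ⟨0, hk⟩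
  have ha0 : ∀ c, a0 (A c) ∈ A c := by
    intro c
    show (if h : ∃ a, a ∈ A c then h.choose else ⟨0, hk⟩) ∈ A c
    rw [dif_pos (hne c)]
    exact (hne c).choose_spec
  have hb0 : ∀ c, b0 (A c) ∉ A c := by
    intro c
    show (if h : ∃ a, a ∉ A c then h.choose else ⟨0, hk⟩) ∉ A c
    rw [dif_pos (hnu c)]
    exact (hnu c).choose_spec
  let N := {c : V → Equiv.Perm (Fin k) //
      ∀ a u v, s.r u v ↔ s.r (step out c u a) (step out c v a)}
  let Φ : N × Fin k → (V → Equiv.Perm (Fin k)) := fun z =>
    Function.update z.1.1 u (tau (A z.1.1) (a0 (A z.1.1)) (b0 (A z.1.1)) z.2 * z.1.1 u)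
  have hΦ : Function.Injective Φ := by
    rintro ⟨⟨c, hc⟩, j⟩ ⟨⟨c', hc'⟩, j'⟩ h
    have hrest : ∀ v, v ≠ u → c v = c' v := by
      intro v hv
      have h1 := congrFun h v
      simp only [Φ] at h1
      rw [Function.update_of_ne hv, Function.update_of_ne hv] at h1
      exact h1
    have hAA : A c = A c' := colset_eq out s u t c c' hc hc' hrest
    have hu := congrFun h u
    simp only [Φ] at hu
    rw [Function.update_self, Function.update_self, ← hAA] at hu
    set T := tau (A c) (a0 (A c)) (b0 (A c)) with hT
    -- the color set after the modification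
    have hset : ∀ (c1 : V → Equiv.Perm (Fin k)) (i x : Fin k), A c1 = A c →
        (s.r (out u ((T i * c1 u).symm x)) t ↔ T i x ∈ A c) := by
      intro c1 i x h1
      rw [← h1, hA]
      unfold step
      have h2 : (T i * c1 u).symm x = (c1 u).symm (T i x) := by
        rw [Equiv.symm_apply_eq]
        rw [Equiv.Perm.mul_apply, Equiv.apply_symm_apply, hT, tau_tau]
      rw [h2]
    have hjj : j = j' := by
      apply tau_inj (A c) (a0 (A c)) (b0 (A c)) (ha0 c) (hb0 c)
      intro x
      rw [← hT, ← hset c j x rfl, ← hset c' j' x hAA.symm, hu]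
    subst hjj
    have hcu : c u = c' u := mul_left_cancel hu
    have hcc : c = c' := by
      funext v
      by_cases hv : v = u
      · rw [hv]; exact hcu
      · exact hrest v hv
    subst hcc
    rfl
  have hcard := Nat.card_le_card_of_injective Φ hΦ
  rw [Nat.card_prod, Nat.card_eq_fintype_card (α := Fin k), Fintype.card_fin,
    Nat.card_eq_fintype_card (α := V → Equiv.Perm (Fin k)), Fintype.card_fun, Fintype.card_perm,
    Fintype.card_fin] at hcard
  exact hcard

open Classical in
theorem ratio_ge (hk : 0 < k) (out : V → Fin k → V)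
    (h : Nat.card {c : V → Equiv.Perm (Fin k) // ¬ Synchronizing out c} * k
      ≤ k.factorial ^ Fintype.card V) : 1 - 1 / (k : ℝ) ≤ ratio out := by
  have htot : Nat.card {c : V → Equiv.Perm (Fin k) // Synchronizing out c}
      + Nat.card {c : V → Equiv.Perm (Fin k) // ¬ Synchronizing out c}
      = k.factorial ^ Fintype.card V := by
    rw [← Nat.card_sum, Nat.card_congr (Equiv.sumCompl _), Nat.card_eq_fintype_card,
      Fintype.card_fun, Fintype.card_perm, Fintype.card_fin]
  have hkR : (0 : ℝ) < k := by exact_mod_cast hk
  have hF : (0 : ℝ) < (k.factorial : ℝ) ^ Fintype.card V := by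
    have := Nat.factorial_pos k
    positivity
  unfold ratio
  rw [le_div_iff₀ hF]
  have h1 : ((Nat.card {c : V → Equiv.Perm (Fin k) // Synchronizing out c} : ℕ) : ℝ)
      + (Nat.card {c : V → Equiv.Perm (Fin k) // ¬ Synchronizing out c} : ℕ)
      = (k.factorial : ℝ) ^ Fintype.card V := by exact_mod_cast htot
  have h2 : ((Nat.card {c : V → Equiv.Perm (Fin k) // ¬ Synchronizing out c} : ℕ) : ℝ) * k
      ≤ (k.factorial : ℝ) ^ Fintype.card V := by exact_mod_cast h
  have h3 : ((Nat.card {c : V → Equiv.Perm (Fin k) // ¬ Synchronizing out c} : ℕ) : ℝ)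
      ≤ (k.factorial : ℝ) ^ Fintype.card V / k := by
    rw [le_div_iff₀ hkR]
    exact h2
  have h4 : (1 - 1 / (k : ℝ)) * (k.factorial : ℝ) ^ Fintype.card V
      = (k.factorial : ℝ) ^ Fintype.card V - (k.factorial : ℝ) ^ Fintype.card V / k := by
    field_simp
  rw [h4]
  linarith

/-- The main theorem: if there is no balanced partition, or if there is a coarsest one, then the
synchronizing ratio is at least `1 - 1 / k`. -/
theorem main (hk : 0 < k) (out : V → Fin k → V) (hp : Primitive out) (w : V → ℕ)
    (hw : Stationary out w) (hne : w ≠ 0)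
    (hu : ∀ s₀ : Setoid V, Balanced w s₀ →
      ∃ Q : Setoid V, Balanced w Q ∧ ∀ s, Balanced w s → ∀ u v, s.r u v → Q.r u v) :
    1 - 1 / (k : ℝ) ≤ ratio out := by
  classical
  have hpos := pos_of out hp.1 w hw hne
  have : Nonempty V := by
    by_contra hV
    rw [not_nonempty_iff] at hV
    exact hne (funext fun v => (hV.false v).elim)
  apply ratio_ge hk
  by_cases hN : ∃ c : V → Equiv.Perm (Fin k), ¬ Synchronizing out c
  · obtain ⟨c0, hc0⟩ := hN
    obtain ⟨s, hs, hsm, -⟩ := invariant_partition out hp.1 c0 w hw hpos hu hc0
    refine le_trans ?_ (count_inv hk out hp s hs.2)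
    apply Nat.mul_le_mul_right
    apply Nat.card_le_card_of_injective
      (fun z : {c : V → Equiv.Perm (Fin k) // ¬ Synchronizing out c} =>
        (⟨z.1, by
          obtain ⟨s', hs', hsm', h'⟩ := invariant_partition out hp.1 z.1 w hw hpos hu z.2
          have : s = s' := Setoid.ext fun u v => ⟨hsm' s hs u v, hsm s' hs' u v⟩
          rw [this]
          exact h'⟩ : {c : V → Equiv.Perm (Fin k) //
            ∀ a u v, s.r u v ↔ s.r (step out c u a) (step out c v a)}))
    intro x y hxy
    exact Subtype.ext (congrArg (fun z => z.1) hxy)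
  · push Not at hN
    have : IsEmpty {c : V → Equiv.Perm (Fin k) // ¬ Synchronizing out c} :=
      ⟨fun z => z.2 (hN z.1)⟩
    rw [Nat.card_of_isEmpty, zero_mul]
    exact Nat.zero_le _

/-! ### Special cases -/

open Classical in
theorem class_le (w : V → ℕ) (s : Setoid V) (M : ℕ)
    (hM : ∀ v, ∑ u, (if s.r u v then w u else 0) = M) (v : V) : w v ≤ M := by
  rw [← hM v]
  calc w v = (if s.r v v then w v else 0) := by rw [if_pos (s.refl v)]
    _ ≤ _ := Finset.single_le_sum (f := fun u => if s.r u v then w u else 0)
          (fun _ _ => Nat.zero_le _) (Finset.mem_univ v)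

open Classical in
theorem two_le (w : V → ℕ) (s : Setoid V) (M : ℕ)
    (hM : ∀ v, ∑ u, (if s.r u v then w u else 0) = M) (u v : V) (huv : ¬ s.r u v) :
    2 * M ≤ ∑ v, w v := by
  have h1 : 2 * M = ∑ z, ((if s.r z u then w z else 0) + (if s.r z v then w z else 0)) := by
    rw [Finset.sum_add_distrib, hM, hM]
    ring
  rw [h1]
  apply Finset.sum_le_sum
  intro z _
  by_cases hz : s.r z u
  · have : ¬ s.r z v := fun h => huv (s.trans (s.symm hz) h)
    rw [if_pos hz, if_neg this]
    omega
  · rw [if_neg hz]
    split_ifs <;> omega

open Classical in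
theorem exists_nequiv (s : Setoid V) (h : ∃ u v, ¬ s.r u v) (v0 : V) : ∃ u, ¬ s.r u v0 := by
  by_contra hcon
  push Not at hcon
  obtain ⟨u, v, huv⟩ := h
  exact huv (s.trans (hcon u) (s.symm (hcon v)))

open Classical in
/-- A vertex with at least half of the weight. -/
theorem heavy (hk : 0 < k) (out : V → Fin k → V) (hp : Primitive out) (w : V → ℕ)
    (hw : Stationary out w) (hne : w ≠ 0) (v0 : V) (hv0 : ∑ v, w v ≤ 2 * w v0) :
    1 - 1 / (k : ℝ) ≤ ratio out := by
  have hpos := pos_of out hp.1 w hw hne
  have key : ∀ s : Setoid V, Balanced w s → ∀ u v, s.r u v ↔ (u = v0 ↔ v = v0) := by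
    rintro s ⟨⟨M, hM⟩, h2⟩
    obtain ⟨u1, hu1⟩ := exists_nequiv s h2 v0
    have h3 := two_le w s M hM u1 v0 hu1
    have h4 := class_le w s M hM v0
    have hMw : M = w v0 := by omega
    -- the class of `v0` is a singleton
    have hsing : ∀ u, s.r u v0 → u = v0 := by
      intro u hu
      by_contra hne'
      have h5 : ∑ z, (if z = v0 then w z else 0) < ∑ z, (if s.r z v0 then w z else 0) := by
        apply Finset.sum_lt_sum
        · intro z _
          by_cases hz : z = v0
          · rw [if_pos hz, hz, if_pos (s.refl v0)]
          · rw [if_neg hz]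
            exact Nat.zero_le _
        · refine ⟨u, Finset.mem_univ u, ?_⟩
          rw [if_neg hne', if_pos hu]
          exact hpos u
      rw [hM, Finset.sum_ite_eq' Finset.univ v0, if_pos (Finset.mem_univ v0)] at h5
      omega
    -- all other vertices are in one class
    have hrest : ∀ u, ¬ s.r u v0 → s.r u u1 := by
      intro u hu
      by_contra hne'
      have h5 : ∑ z, ((if s.r z v0 then w z else 0) + (if s.r z u1 then w z else 0)) < ∑ z, w z := by
        apply Finset.sum_lt_sum
        · intro z _
          by_cases hz : s.r z v0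
          · have : ¬ s.r z u1 := fun h => hu1 (s.trans (s.symm h) hz)
            rw [if_pos hz, if_neg this]
            omega
          · rw [if_neg hz]
            split_ifs <;> omega
        · refine ⟨u, Finset.mem_univ u, ?_⟩
          rw [if_neg hu, if_neg hne']
          simpa using hpos u
      rw [Finset.sum_add_distrib, hM, hM] at h5
      omega
    intro u v
    constructor
    · intro h
      constructor
      · intro hu
        apply hsing
        rw [hu] at h
        exact s.symm h
      · intro hv
        apply hsing
        rw [hv] at h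
        exact h
    · intro h
      by_cases hu : u = v0
      · rw [hu, h.mp hu]
      · have hv : v ≠ v0 := fun h' => hu (h.mpr h')
        have h6 := hrest u (fun h' => hu (hsing u h'))
        have h7 := hrest v (fun h' => hv (hsing v h'))
        exact s.trans h6 (s.symm h7)
  apply main hk out hp w hw hne
  intro s₀ hs₀
  exact ⟨s₀, hs₀, fun s hs u v h => (key s₀ hs₀ u v).mpr ((key s hs u v).mp h)⟩

open Classical in
/-- The total weight is a prime number. -/
theorem prime_total (hk : 0 < k) (out : V → Fin k → V) (hp : Primitive out) (w : V → ℕ)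
    (hw : Stationary out w) (hW : (∑ v, w v).Prime) : 1 - 1 / (k : ℝ) ≤ ratio out := by
  have hne : w ≠ 0 := by
    intro h
    rw [h] at hW
    simp at hW
    exact Nat.not_prime_zero hW
  have hpos := pos_of out hp.1 w hw hne
  have key : ∀ s : Setoid V, Balanced w s → ∀ u v, s.r u v → u = v := by
    rintro s ⟨⟨M, hM⟩, ⟨u1, v1, huv1⟩⟩ u v huv
    have hdiv : M ∣ ∑ v, w v := by
      have h1 : ∑ v, w v = ∑ q : Quotient s, ∑ v, (if Quotient.mk s v = q then w v else 0) := by
        rw [Finset.sum_comm]
        apply Finset.sum_congr rfl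
        intro v _
        rw [Finset.sum_ite_eq, if_pos (Finset.mem_univ _)]
      rw [h1]
      apply Finset.dvd_sum
      intro q _
      induction q using Quotient.inductionOn with | _ z => ?_
      have h2 : ∑ v, (if Quotient.mk s v = Quotient.mk s z then w v else 0) = M := by
        rw [← hM z]
        apply Finset.sum_congr rfl
        intro v _
        have : (Quotient.mk s v = Quotient.mk s z) ↔ s.r v z := Quotient.eq
        simp only [this]
      rw [h2]
    have h2 := two_le w s M hM u1 v1 huv1
    have hMpos : 0 < M := lt_of_lt_of_le (hpos u) (class_le w s M hM u)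
    have hM1 : M = 1 := by
      rcases (Nat.dvd_prime hW).mp hdiv with h | h
      · exact h
      · omega
    by_contra hne'
    have h3 : w u + w v ≤ M := by
      rw [← hM v]
      calc w u + w v = ∑ z ∈ {u, v}, (if s.r z v then w z else 0) := by
            rw [Finset.sum_pair hne', if_pos huv, if_pos (s.refl v)]
        _ ≤ _ := Finset.sum_le_sum_of_subset (Finset.subset_univ _)
    have := hpos u
    have := hpos v
    omega
  apply main hk out hp w hw hne
  intro s₀ hs₀
  exact ⟨s₀, hs₀, fun s hs u v h => by rw [key s hs u v h]⟩

open Classical in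
/-- Stationary weights exist. -/
theorem exists_stationary [Nonempty V] (out : V → Fin k → V) :
    ∃ w : V → ℕ, w ≠ 0 ∧ Stationary out w := by
  let N : V → V → ℕ := fun v u => ∑ i, (if out v i = u then 1 else 0)
  have hN : ∀ v, ∑ u, N v u = k := by
    intro v
    show ∑ u, ∑ i, (if out v i = u then 1 else 0) = k
    rw [Finset.sum_comm]
    simp
  let A : Matrix V V ℤ := Matrix.of fun v u => (N v u : ℤ) - (if v = u then (k : ℤ) else 0)
  have hdet : A.det = 0 := by
    rw [← Matrix.exists_mulVec_eq_zero_iff]
    refine ⟨fun _ => 1, ?_, ?_⟩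
    · intro h
      have := congrFun h (Classical.arbitrary V)
      simp at this
    · funext v
      show ∑ u, A v u * 1 = 0
      simp only [mul_one]
      show ∑ u, ((N v u : ℤ) - (if v = u then (k : ℤ) else 0)) = 0
      rw [Finset.sum_sub_distrib, Finset.sum_ite_eq, if_pos (Finset.mem_univ _)]
      have := hN v
      have h2 : ∑ u, (N v u : ℤ) = k := by exact_mod_cast this
      rw [h2]
      ring
  rw [← Matrix.exists_vecMul_eq_zero_iff] at hdet
  obtain ⟨x, hx0, hx⟩ := hdet
  have hx1 : ∀ u, ∑ v, x v * (N v u : ℤ) = k * x u := by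
    intro u
    have h1 := congrFun hx u
    have h2 : ∑ v, x v * ((N v u : ℤ) - (if v = u then (k : ℤ) else 0)) = 0 := h1
    have h3 : ∑ v, x v * ((N v u : ℤ) - (if v = u then (k : ℤ) else 0))
        = ∑ v, x v * (N v u : ℤ) - k * x u := by
      rw [Finset.sum_congr rfl (fun v _ => mul_sub (x v) _ _), Finset.sum_sub_distrib]
      congr 1
      simp only [mul_ite, mul_zero]
      rw [Finset.sum_ite_eq' Finset.univ u, if_pos (Finset.mem_univ _)]
      ring
    linarith
  have hx2 : ∀ u, (k : ℤ) * |x u| ≤ ∑ v, |x v| * (N v u : ℤ) := by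
    intro u
    calc (k : ℤ) * |x u| = |(k : ℤ) * x u| := by rw [abs_mul, Nat.abs_cast]
      _ = |∑ v, x v * (N v u : ℤ)| := by rw [hx1]
      _ ≤ ∑ v, |x v * (N v u : ℤ)| := Finset.abs_sum_le_sum_abs _ _
      _ = ∑ v, |x v| * (N v u : ℤ) := by
          apply Finset.sum_congr rfl
          intro v _
          rw [abs_mul, Nat.abs_cast]
  have hx3 : ∑ u, (k : ℤ) * |x u| = ∑ u, ∑ v, |x v| * (N v u : ℤ) := by
    rw [Finset.sum_comm]
    apply Finset.sum_congr rfl
    intro v _
    rw [← Finset.mul_sum]
    have h2 : ∑ u, (N v u : ℤ) = k := by exact_mod_cast hN v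
    rw [h2]
    ring
  have hx4 : ∀ u, (k : ℤ) * |x u| = ∑ v, |x v| * (N v u : ℤ) := by
    intro u
    exact (Finset.sum_eq_sum_iff_of_le (fun u _ => hx2 u)).mp hx3 u (Finset.mem_univ u)
  refine ⟨fun v => (x v).natAbs, ?_, ?_⟩
  · intro h
    apply hx0
    funext v
    have := congrFun h v
    simpa using this
  · intro u
    have h1 : ∀ v, ∑ i, (if out v i = u then (x v).natAbs else 0) = (x v).natAbs * N v u := by
      intro v
      show _ = (x v).natAbs * ∑ i, (if out v i = u then 1 else 0)
      rw [Finset.mul_sum]
      apply Finset.sum_congr rfl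
      intro i _
      split_ifs <;> simp
    rw [Finset.sum_congr rfl (fun v _ => h1 v)]
    have h2 := hx4 u
    have h3 : ((∑ v, (x v).natAbs * N v u : ℕ) : ℤ) = ((k * (x u).natAbs : ℕ) : ℤ) := by
      push_cast
      rw [h2]
    exact_mod_cast h3

open Classical in
/-- At most three vertices. -/
theorem three (hk : 0 < k) (out : V → Fin k → V) (hp : Primitive out)
    (h3 : Fintype.card V ≤ 3) : 1 - 1 / (k : ℝ) ≤ ratio out := by
  have hV : Nonempty V := by
    by_contra hV
    rw [not_nonempty_iff] at hV
    have := hp.2 2 (fun n v _ => (hV.false v).elim)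
    omega
  obtain ⟨w, hne, hw⟩ := exists_stationary out
  have hpos := pos_of out hp.1 w hw hne
  by_cases hheavy : ∃ v0, ∑ v, w v ≤ 2 * w v0
  · obtain ⟨v0, hv0⟩ := hheavy
    exact heavy hk out hp w hw hne v0 hv0
  · push Not at hheavy
    have key : ∀ s : Setoid V, Balanced w s → ∀ u v, s.r u v → u = v := by
      rintro s ⟨⟨M, hM⟩, h2⟩ u v huv
      by_contra hne'
      obtain ⟨z, hz⟩ := exists_nequiv s h2 u
      have hzu : z ≠ u := fun h => hz (h ▸ s.refl z)
      have hzv : z ≠ v := fun h => hz (by rw [h]; exact s.symm huv)
      have hall : ∀ y, y = u ∨ y = v ∨ y = z := by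
        have hcard : ({u, v, z} : Finset V).card = 3 := by
          rw [Finset.card_insert_of_notMem, Finset.card_pair (Ne.symm hzv)]
          simp only [Finset.mem_insert, Finset.mem_singleton]
          rintro (h | h)
          · exact hne' h
          · exact hzu h.symm
        have huniv : ({u, v, z} : Finset V) = Finset.univ := by
          apply Finset.eq_univ_of_card
          apply le_antisymm (Finset.card_le_univ _)
          rw [hcard]
          exact h3
        intro y
        have := Finset.mem_univ y
        rw [← huniv] at this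
        simpa using this
      have hMz : M = w z := by
        rw [← hM z]
        rw [Finset.sum_eq_single z]
        · rw [if_pos (s.refl z)]
        · intro y _ hy
          rw [if_neg]
          intro h
          rcases hall y with h' | h' | h'
          · exact hz (s.symm (h' ▸ h))
          · exact hz (s.trans (s.symm (h' ▸ h)) (s.symm huv))
          · exact hy h'
        · intro h
          exact absurd (Finset.mem_univ _) h
      have hsum : ∑ y, w y ≤ M + M := by
        have h1 : M + M = ∑ y, ((if s.r y u then w y else 0) + (if s.r y z then w y else 0)) := by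
          rw [Finset.sum_add_distrib, hM, hM]
        rw [h1]
        apply Finset.sum_le_sum
        intro y _
        rcases hall y with h' | h' | h'
        · rw [h', if_pos (s.refl u)]
          omega
        · rw [h', if_pos (s.symm huv)]
          omega
        · rw [h', if_pos (s.refl z)]
          omega
      have := hheavy z
      omega
    apply main hk out hp w hw hne
    intro s₀ hs₀
    exact ⟨s₀, hs₀, fun s hs u v h => by rw [key s hs u v h]⟩

end fin2

end Pool.Agent.Helper695.SR
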