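import Pool.Agent.Helper695_SR.Base

/-!
# The synchronizing ratio for a large number of colors
-/

set_option autoImplicit false
set_option maxHeartbeats 1000000

open Finset

namespace Pool.Agent.Helper695.SR

universe u

variable {V : Type u} {k : ℕ}

/-! ### Weights of sets of vertices -/

section weights
variable [Fintype V]

open Classical in
/-- The weight of a set of vertices. -/
noncomputable def wt (w : V → ℕ) (T : Set V) : ℕ := ∑ v, if v ∈ T then w v else 0

/-- The preimage of a set under a word. -/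
def pre (out : V → Fin k → V) (c : V → Equiv.Perm (Fin k)) (y : List (Fin k)) (T : Set V) :
    Set V := {v | run out c y v ∈ T}

/-- All preimages of `T` have the weight of `T`. -/
def Good (w : V → ℕ) (out : V → Fin k → V) (c : V → Equiv.Perm (Fin k)) (T : Set V) : Prop :=
  ∀ y, wt w (pre out c y T) = wt w T

/-- The preimages of `T` under the letters have the weight of `T`. -/
def Bal (w : V → ℕ) (out : V → Fin k → V) (c : V → Equiv.Perm (Fin k)) (T : Set V) : Prop :=
  ∀ a, wt w {v | step out c v a ∈ T} = wt w T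

/-- Neither empty nor everything. -/
def Nontriv (T : Set V) : Prop := (∃ v, v ∈ T) ∧ ∃ v, v ∉ T

/-- `u` has edges into `T` and edges out of `T`. -/
def Mixed (out : V → Fin k → V) (u : V) (T : Set V) : Prop :=
  (∃ i, out u i ∈ T) ∧ ∃ j, out u j ∉ T

theorem Good.bal {w : V → ℕ} {out : V → Fin k → V} {c : V → Equiv.Perm (Fin k)} {T : Set V}
    (h : Good w out c T) : Bal w out c T := fun a => h [a]

theorem Good.pr {w : V → ℕ} {out : V → Fin k → V} {c : V → Equiv.Perm (Fin k)} {T : Set V}
    (h : Good w out c T) (y : List (Fin k)) : Good w out c (pre out c y T) := by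
  intro z
  have h1 : pre out c z (pre out c y T) = pre out c (z ++ y) T := by
    ext v
    show run out c y (run out c z v) ∈ T ↔ run out c (z ++ y) v ∈ T
    rw [run_append]
  rw [h1, h (z ++ y), h y]

open Classical in
theorem mono_wt {w : V → ℕ} (hpos : ∀ v, 0 < w v) {A B : Set V} (h : wt w A = wt w B)
    (hAB : A ⊆ B) : B ⊆ A := by
  intro v hv
  by_contra hvA
  have : wt w A < wt w B := by
    unfold wt
    apply Finset.sum_lt_sum
    · intro x _
      by_cases hx : x ∈ A
      · rw [if_pos hx, if_pos (hAB hx)]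
      · rw [if_neg hx]; exact Nat.zero_le _
    · refine ⟨v, Finset.mem_univ v, ?_⟩
      rw [if_neg hvA, if_pos hv]
      exact hpos v
  omega

open Classical in
theorem Good.nontriv {w : V → ℕ} (hpos : ∀ v, 0 < w v) {out : V → Fin k → V}
    {c : V → Equiv.Perm (Fin k)} {T : Set V} (h : Good w out c T) (hT : Nontriv T)
    (y : List (Fin k)) : Nontriv (pre out c y T) := by
  obtain ⟨⟨v1, hv1⟩, ⟨v2, hv2⟩⟩ := hT
  constructor
  · by_contra hcon
    push Not at hcon
    have h1 : pre out c y T ⊆ T := fun v hv => absurd hv (hcon v)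
    exact hcon v1 (mono_wt hpos (h y) h1 hv1)
  · by_contra hcon
    push Not at hcon
    have h1 : T ⊆ pre out c y T := fun v _ => hcon v
    exact hv2 (mono_wt hpos (h y).symm h1 (hcon v2))

open Classical in
/-- A coloring which is not synchronizing has a nontrivial set all of whose preimages have the same
weight. -/
theorem exists_good {w : V → ℕ} (hpos : ∀ v, 0 < w v) (out : V → Fin k → V)
    (hp : ∀ u v, ∃ n, Walk out n u v) (hw : Stationary out w) (c : V → Equiv.Perm (Fin k))
    (hc : ¬ Synchronizing out c) [Nonempty V] : ∃ T : Set V, Nontriv T ∧ Good w out c T := by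
  obtain ⟨x, M, hM, hx⟩ := structure_word out hp c w hw hpos
  let v1 : V := Classical.arbitrary V
  have hcw : ∀ y, wt w {v | run out c (y ++ x) v = run out c x v1} = M := by
    intro y
    have h1 := cw_append out c w hw M hM x _ (hx v1) y
    rw [← h1]
    rfl
  refine ⟨{v | run out c x v = run out c x v1}, ⟨⟨v1, rfl⟩, ?_⟩, ?_⟩
  · by_contra hcon
    push Not at hcon
    exact hc ⟨x, run out c x v1, fun q => hcon q⟩
  · intro y
    have h1 : pre out c y {v | run out c x v = run out c x v1}
        = {v | run out c (y ++ x) v = run out c x v1} := by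
      ext v
      show run out c x (run out c y v) = _ ↔ run out c (y ++ x) v = _
      rw [run_append]
    rw [h1, hcw y]
    exact (hcw []).symm

end weights

/-- If all successors of equivalent vertices are equivalent then all vertices are equivalent. -/
theorem all_equiv (hk : 0 < k) (out : V → Fin k → V) (hp : Primitive out) (s : Setoid V)
    (h : ∀ u v, s.r u v → ∀ i j, s.r (out u i) (out v j)) (u0 v0 : V) : s.r u0 v0 := by
  let i0 : Fin k := ⟨0, hk⟩
  let F : Quotient s → Quotient s :=
    Quotient.map (fun u => out u i0) (fun u v huv => h u v huv i0 i0)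
  have hF : ∀ u i, F (Quotient.mk s u) = Quotient.mk s (out u i) := by
    intro u i
    exact Quotient.sound (h u u (s.refl u) i0 i)
  have hW : ∀ (n : ℕ) (u v : V), Walk out n u v → F^[n] (Quotient.mk s u) = Quotient.mk s v := by
    intro n
    induction n with
    | zero => intro u v h; rw [show u = v from h]; rfl
    | succ n ih =>
      intro u v h
      obtain ⟨i, hi⟩ := h
      rw [Function.iterate_succ_apply, hF u i]
      exact ih _ _ hi
  have hd : Function.minimalPeriod F (Quotient.mk s u0) = 1 := by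
    apply hp.2
    intro n v hn
    apply Function.IsPeriodicPt.minimalPeriod_dvd
    obtain ⟨m, hm⟩ := hp.1 v u0
    have h1 := hW m v u0 hm
    have h2 := hW n v v hn
    show F^[n] (Quotient.mk s u0) = Quotient.mk s u0
    rw [← h1, ← Function.iterate_add_apply, add_comm, Function.iterate_add_apply, h2]
  rw [Function.minimalPeriod_eq_one_iff_isFixedPt] at hd
  obtain ⟨m, hm⟩ := hp.1 u0 v0
  have h3 := hW m u0 v0 hm
  rw [(hd.iterate m).eq] at h3
  exact Quotient.exact h3

/-- Some preimage of a nontrivial set has a mixed vertex. -/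
theorem exists_mixed_pre (hk : 0 < k) (out : V → Fin k → V) (hp : Primitive out)
    (c : V → Equiv.Perm (Fin k)) (T : Set V) (hT : Nontriv T) :
    ∃ y u, Mixed out u (pre out c y T) := by
  by_contra hcon
  push Not at hcon
  have hall : ∀ y u i j, out u i ∈ pre out c y T → out u j ∈ pre out c y T := by
    intro y u i j hi
    by_contra hj
    exact hcon y u ⟨⟨i, hi⟩, ⟨j, hj⟩⟩
  let s : Setoid V :=
    { r := fun p q => ∀ y, (run out c y p ∈ T ↔ run out c y q ∈ T)
      iseqv := ⟨fun _ _ => Iff.rfl, fun h y => (h y).symm, fun h h' y => (h y).trans (h' y)⟩ }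
  have hs : ∀ u v, s.r u v → ∀ i j, s.r (out u i) (out v j) := by
    intro u v h i j y
    have h1 : run out c y (out u i) ∈ T ↔ run out c y (step out c u i) ∈ T := by
      constructor
      · exact fun h' => hall y u i _ h'
      · exact fun h' => hall y u _ i h'
    have h2 : run out c y (out v j) ∈ T ↔ run out c y (step out c v i) ∈ T := by
      constructor
      · exact fun h' => hall y v j _ h'
      · exact fun h' => hall y v _ j h'
    rw [h1, h2]
    exact h (i :: y)
  obtain ⟨⟨v1, hv1⟩, ⟨v2, hv2⟩⟩ := hT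
  exact hv2 ((all_equiv hk out hp s hs v1 v2 []).mp hv1)

/-! ### Exceptional edges -/

/-- The end of the edge `e` of `p` is on the other side of `S` than the ends of all other edges. -/
def Exc (out : V → Fin k → V) (S : Set V) (p : V) (e : Fin k) : Prop :=
  ∀ i, i ≠ e → ¬ (out p i ∈ S ↔ out p e ∈ S)

/-- The edge `e` of `p` has no parallel edges. -/
def Sgl (out : V → Fin k → V) (p : V) (e : Fin k) : Prop := ∀ i, out p i = out p e → i = e

theorem Exc.sgl {out : V → Fin k → V} {S : Set V} {p : V} {e : Fin k} (h : Exc out S p e) :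
    Sgl out p e := by
  intro i hi
  by_contra hne
  exact h i hne (by rw [hi])

theorem Exc.same {out : V → Fin k → V} {S : Set V} {p : V} {e : Fin k} (h : Exc out S p e)
    {i j : Fin k} (hi : i ≠ e) (hj : j ≠ e) : out p i ∈ S ↔ out p j ∈ S := by
  have h1 := h i hi
  have h2 := h j hj
  tauto

theorem exists_third (hk : 3 ≤ k) (a b : Fin k) : ∃ x : Fin k, x ≠ a ∧ x ≠ b := by
  by_contra hcon
  push Not at hcon
  have h1 : (Finset.univ : Finset (Fin k)) ⊆ {a, b} := by
    intro x _
    by_cases hx : x = a
    · simp [hx]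
    · simp [hcon x hx]
  have h2 := Finset.card_le_card h1
  have h3 : ({a, b} : Finset (Fin k)).card ≤ 2 := Finset.card_le_two
  rw [Finset.card_univ, Fintype.card_fin] at h2
  omega

theorem Exc.uniq (hk : 3 ≤ k) {out : V → Fin k → V} {S : Set V} {p : V} {e e' : Fin k}
    (h : Exc out S p e) (h' : Exc out S p e') : e = e' := by
  by_contra hne
  obtain ⟨x, hx1, hx2⟩ := exists_third hk e e'
  have h1 := h x hx1
  have h2 := h' x hx2
  have h3 := h e' (Ne.symm hne)
  tauto

theorem Exc.mixed (hk : 3 ≤ k) {out : V → Fin k → V} {S : Set V} {p : V} {e : Fin k}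
    (h : Exc out S p e) : Mixed out p S := by
  obtain ⟨x, hx, -⟩ := exists_third hk e e
  have h1 := h x hx
  by_cases h2 : out p e ∈ S
  · exact ⟨⟨e, h2⟩, ⟨x, by tauto⟩⟩
  · exact ⟨⟨x, by tauto⟩, ⟨e, h2⟩⟩

/-- The edges of `u` into `T` and out of `T` number at least two each. -/
def Thick (out : V → Fin k → V) (u : V) (T : Set V) : Prop :=
  (∃ i j, i ≠ j ∧ out u i ∈ T ∧ out u j ∈ T) ∧ ∃ i j, i ≠ j ∧ out u i ∉ T ∧ out u j ∉ T

theorem exc_of_mixed {out : V → Fin k → V} {u : V} {T : Set V} (hm : Mixed out u T)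
    (ht : ¬ Thick out u T) : ∃ e, Exc out T u e := by
  obtain ⟨⟨i, hi⟩, ⟨j, hj⟩⟩ := hm
  by_cases h1 : ∃ i j, i ≠ j ∧ out u i ∈ T ∧ out u j ∈ T
  · have h2 : ¬ ∃ i j, i ≠ j ∧ out u i ∉ T ∧ out u j ∉ T := fun h => ht ⟨h1, h⟩
    push Not at h2
    refine ⟨j, fun x hx => ?_⟩
    have := h2 x j hx
    tauto
  · push Not at h1
    refine ⟨i, fun x hx => ?_⟩
    have := h1 x i hx
    tauto

/-- Bad colorings of the first kind. -/
def TI [Fintype V] (w : V → ℕ) (out : V → Fin k → V) (c : V → Equiv.Perm (Fin k)) : Prop :=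
  ∃ (T : Set V) (u : V), Thick out u T ∧ Bal w out c T

/-- Bad colorings of the second kind. -/
def TII (out : V → Fin k → V) (c : V → Equiv.Perm (Fin k)) : Prop :=
  ∃ (u1 : V) (e1 : Fin k) (u2 : V) (e2 : Fin k) (u3 : V) (e3 : Fin k) (u4 : V) (e4 : Fin k),
    Sgl out u1 e1 ∧ Sgl out u2 e2 ∧ Sgl out u3 e3 ∧ Sgl out u4 e4 ∧ u1 ≠ u2 ∧ u3 ≠ u4 ∧
    c u1 e1 = c u2 e2 ∧ c u3 e3 = c u4 e4 ∧ ¬ (u3 = u1 ∧ e3 = e1) ∧ ¬ (u3 = u2 ∧ e3 = e2)

section structure_
variable [Fintype V]

/-- If the status of only one vertex can change then it does not change. -/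
theorem cmp1 {w : V → ℕ} (hpos : ∀ v, 0 < w v) {out : V → Fin k → V}
    {c : V → Equiv.Perm (Fin k)} {S : Set V} (hb : Bal w out c S) (p : V) (a b : Fin k)
    (h : ∀ q, q ≠ p → (step out c q a ∈ S ↔ step out c q b ∈ S)) :
    step out c p a ∈ S ↔ step out c p b ∈ S := by
  have hab : wt w {v | step out c v a ∈ S} = wt w {v | step out c v b ∈ S} := by
    rw [hb a, hb b]
  by_contra hcon
  by_cases h1 : step out c p a ∈ S
  · have h2 : step out c p b ∉ S := fun h' => hcon ⟨fun _ => h', fun _ => h1⟩
    have h3 : {v | step out c v b ∈ S} ⊆ {v | step out c v a ∈ S} := by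
      intro v hv
      by_cases hvp : v = p
      · rw [hvp]; exact h1
      · exact (h v hvp).mpr hv
    exact h2 (mono_wt hpos hab.symm h3 h1)
  · have h2 : step out c p b ∈ S := by
      by_contra h'
      exact hcon ⟨fun h'' => absurd h'' h1, fun h'' => absurd h'' h'⟩
    have h3 : {v | step out c v a ∈ S} ⊆ {v | step out c v b ∈ S} := by
      intro v hv
      by_cases hvp : v = p
      · rw [hvp]; exact h2
      · exact (h v hvp).mp hv
    exact h1 (mono_wt hpos hab h3 h2)

/-- If only two vertices can change their status, and their statuses agree, then nothing changes. -/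
theorem cmp2 {w : V → ℕ} (hpos : ∀ v, 0 < w v) {out : V → Fin k → V}
    {c : V → Equiv.Perm (Fin k)} {S : Set V} (hb : Bal w out c S) (p q : V) (a b : Fin k)
    (h : ∀ r, r ≠ p → r ≠ q → (step out c r a ∈ S ↔ step out c r b ∈ S))
    (ha : step out c p a ∈ S ↔ step out c q a ∈ S) (hb' : step out c p b ∈ S ↔ step out c q b ∈ S) :
    step out c p a ∈ S ↔ step out c p b ∈ S := by
  have hab : wt w {v | step out c v a ∈ S} = wt w {v | step out c v b ∈ S} := by
    rw [hb a, hb b]
  by_contra hcon
  by_cases h1 : step out c p a ∈ S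
  · have h2 : step out c p b ∉ S := fun h' => hcon ⟨fun _ => h', fun _ => h1⟩
    have h3 : {v | step out c v b ∈ S} ⊆ {v | step out c v a ∈ S} := by
      intro v hv
      by_cases hvp : v = p
      · rw [hvp]; exact h1
      · by_cases hvq : v = q
        · rw [hvq]; exact ha.mp h1
        · exact (h v hvp hvq).mpr hv
    exact h2 (mono_wt hpos hab.symm h3 h1)
  · have h2 : step out c p b ∈ S := by
      by_contra h'
      exact hcon ⟨fun h'' => absurd h'' h1, fun h'' => absurd h'' h'⟩
    have h3 : {v | step out c v a ∈ S} ⊆ {v | step out c v b ∈ S} := by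
      intro v hv
      by_cases hvp : v = p
      · rw [hvp]; exact h2
      · by_cases hvq : v = q
        · rw [hvq]; exact hb'.mp h2
        · exact (h v hvp hvq).mp hv
    exact h1 (mono_wt hpos hab h3 h2)

open Classical in
/-- The color of an exceptional edge is the color of another exceptional edge. -/
theorem partner (hk : 3 ≤ k) (hkV : Fintype.card V < k) {w : V → ℕ} (hpos : ∀ v, 0 < w v)
    {out : V → Fin k → V} {c : V → Equiv.Perm (Fin k)} (hTI : ¬ TI w out c) {S : Set V}
    (hb : Bal w out c S) {p : V} {e : Fin k} (he : Exc out S p e) :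
    ∃ q f, q ≠ p ∧ Exc out S q f ∧ c q f = c p e := by
  have hthin : ∀ q, Mixed out q S → ∃ f, Exc out S q f := fun q hq =>
    exc_of_mixed hq (fun ht => hTI ⟨S, q, ht, hb⟩)
  let ex : V → Fin k := fun q => if h : ∃ f, Exc out S q f then h.choose else e
  have hex : ∀ q f, Exc out S q f → ex q = f := by
    intro q f hf
    have h : ∃ f, Exc out S q f := ⟨f, hf⟩
    show (if h : ∃ f, Exc out S q f then h.choose else e) = f
    rw [dif_pos h]
    exact Exc.uniq hk h.choose_spec hf
  obtain ⟨b, hbn⟩ : ∃ b : Fin k, b ∉ Finset.univ.image (fun q => c q (ex q)) := by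
    by_contra hcon
    push Not at hcon
    have h1 : (Finset.univ : Finset (Fin k)) ⊆ Finset.univ.image (fun q => c q (ex q)) :=
      fun x _ => hcon x
    have h2 := (Finset.card_le_card h1).trans Finset.card_image_le
    rw [Finset.card_univ, Finset.card_univ, Fintype.card_fin] at h2
    omega
  have hbn' : ∀ q, c q (ex q) ≠ b := by
    intro q hq
    apply hbn
    rw [Finset.mem_image]
    exact ⟨q, Finset.mem_univ q, hq⟩
  by_contra hcon
  push Not at hcon
  have hstat : ∀ q, ∀ x, (∀ f, Exc out S q f → c q f ≠ x) → ∀ f, Exc out S q f → (c q).symm x ≠ f := by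
    intro q x hx f hf h
    apply hx f hf
    rw [← h, Equiv.apply_symm_apply]
  have hsame : ∀ q, q ≠ p → (step out c q (c p e) ∈ S ↔ step out c q b ∈ S) := by
    intro q hq
    unfold step
    by_cases hm : Mixed out q S
    · obtain ⟨f, hf⟩ := hthin q hm
      have h1 : (c q).symm (c p e) ≠ f := by
        intro h
        apply hcon q f hq hf
        rw [← h, Equiv.apply_symm_apply]
      have h2 : (c q).symm b ≠ f := by
        intro h
        apply hbn' q
        rw [hex q f hf, ← h, Equiv.apply_symm_apply]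
      exact hf.same h1 h2
    · unfold Mixed at hm
      push Not at hm
      constructor
      · intro h'
        exact hm ⟨_, h'⟩ _
      · intro h'
        exact hm ⟨_, h'⟩ _
  have h1 := cmp1 hpos hb p (c p e) b hsame
  unfold step at h1
  rw [Equiv.symm_apply_apply] at h1
  have h2 : (c p).symm b ≠ e := by
    intro h
    apply hbn' p
    rw [hex p e he, ← h, Equiv.apply_symm_apply]
  exact he _ h2 h1.symm

/-- What a coloring which is not synchronizing and not bad says about a set `S`: only the vertices
`u`, `v` can be mixed, with the exceptional edges `e`, `f`. -/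
def Con (out : V → Fin k → V) (u : V) (e : Fin k) (v : V) (f : Fin k) (S : Set V) : Prop :=
  (∀ q, q ≠ u → q ≠ v → ∀ i j, (out q i ∈ S ↔ out q j ∈ S)) ∧
  (∀ i j, i ≠ e → j ≠ e → (out u i ∈ S ↔ out u j ∈ S)) ∧
  (∀ i j, i ≠ f → j ≠ f → (out v i ∈ S ↔ out v j ∈ S))

theorem Con.symm {out : V → Fin k → V} {u : V} {e : Fin k} {v : V} {f : Fin k} {S : Set V}
    (h : Con out u e v f S) : Con out v f u e S :=
  ⟨fun q h1 h2 => h.1 q h2 h1, h.2.2, h.2.1⟩

theorem con_of_bal (hk : 3 ≤ k) (hkV : Fintype.card V < k) {w : V → ℕ} (hpos : ∀ v, 0 < w v)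
    {out : V → Fin k → V} {c : V → Equiv.Perm (Fin k)} (hTI : ¬ TI w out c) (hTII : ¬ TII out c)
    {u : V} {e : Fin k} {v : V} {f : Fin k} (hu : Sgl out u e) (hv : Sgl out v f) (huv : u ≠ v)
    (hc : c u e = c v f) {S : Set V} (hb : Bal w out c S) : Con out u e v f S := by
  have key : ∀ q g, Exc out S q g → (q = u ∧ g = e) ∨ (q = v ∧ g = f) := by
    intro q g hg
    obtain ⟨q', g', hne, hg', hcc⟩ := partner hk hkV hpos hTI hb hg
    by_contra hcon
    push Not at hcon
    exact hTII ⟨u, e, v, f, q, g, q', g', hu, hv, hg.sgl, hg'.sgl, huv, hne.symm, hc, hcc.symm,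
      fun h => hcon.1 h.1 h.2, fun h => hcon.2 h.1 h.2⟩
  have hthin : ∀ q, Mixed out q S → ∃ f, Exc out S q f := fun q hq =>
    exc_of_mixed hq (fun ht => hTI ⟨S, q, ht, hb⟩)
  have hpure : ∀ q, ¬ Mixed out q S → ∀ i j, (out q i ∈ S ↔ out q j ∈ S) := by
    intro q hq i j
    unfold Mixed at hq
    push Not at hq
    exact ⟨fun h => hq ⟨_, h⟩ _, fun h => hq ⟨_, h⟩ _⟩
  refine ⟨?_, ?_, ?_⟩
  · intro q h1 h2
    apply hpure
    intro hm
    obtain ⟨g, hg⟩ := hthin q hm
    rcases key q g hg with h | h
    · exact h1 h.1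
    · exact h2 h.1
  · intro i j hi hj
    by_cases hm : Mixed out u S
    · obtain ⟨g, hg⟩ := hthin u hm
      rcases key u g hg with h | h
      · rw [h.2] at hg
        exact hg.same hi hj
      · exact absurd h.1 huv
    · exact hpure u hm i j
  · intro i j hi hj
    by_cases hm : Mixed out v S
    · obtain ⟨g, hg⟩ := hthin v hm
      rcases key v g hg with h | h
      · exact absurd h.1.symm huv
      · rw [h.2] at hg
        exact hg.same hi hj
    · exact hpure v hm i j

/-- Membership in all preimages of `T` under words. -/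
def eqv (out : V → Fin k → V) (c : V → Equiv.Perm (Fin k)) (T : Set V) : Setoid V :=
  { r := fun p q => ∀ y, (run out c y p ∈ T ↔ run out c y q ∈ T)
    iseqv := ⟨fun _ _ => Iff.rfl, fun h y => (h y).symm, fun h h' y => (h y).trans (h' y)⟩ }

/-- The class of `u` is a singleton. -/
theorem class_single (hk : 3 ≤ k) {w : V → ℕ} (hpos : ∀ v, 0 < w v)
    {out : V → Fin k → V} {c : V → Equiv.Perm (Fin k)}
    {u : V} {e : Fin k} {v : V} {f : Fin k} {T : Set V} (hb : Bal w out c T)
    (hcon : Con out u e v f T) (hu : Exc out T u e) (q : V)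
    (hq : (eqv out c T).r q u) : q = u := by
  obtain ⟨i, hi, -⟩ := exists_third hk e e
  have ha : step out c u (c u e) = out u e := by unfold step; rw [Equiv.symm_apply_apply]
  have hb' : step out c u (c u i) = out u i := by unfold step; rw [Equiv.symm_apply_apply]
  have h1 : step out c q (c u e) ∈ T ↔ out u e ∈ T := by
    have := hq [c u e]
    rw [← ha]
    exact this
  have h2 : step out c q (c u i) ∈ T ↔ out u i ∈ T := by
    have := hq [c u i]
    rw [← hb']
    exact this
  have h3 := hu i hi
  by_contra hqu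
  by_cases hqv : q = v
  · have h4 := cmp2 hpos hb u q (c u e) (c u i) (fun r hr1 hr2 => by
      unfold step
      exact hcon.1 r hr1 (hqv ▸ hr2) _ _) (by rw [h1, ha]) (by rw [h2, hb'])
    rw [ha, hb'] at h4
    exact h3 h4.symm
  · have h4 := hcon.1 q hqu hqv ((c q).symm (c u e)) ((c q).symm (c u i))
    unfold step at h1 h2
    rw [h1, h2] at h4
    exact h3 h4.symm

theorem walk_run (out : V → Fin k → V) (c : V → Equiv.Perm (Fin k)) :
    ∀ (z : List (Fin k)) (v : V), Walk out z.length v (run out c z v) := by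
  intro z
  induction z with
  | nil => intro v; rfl
  | cons a z ih => intro v; exact ⟨(c v).symm a, ih _⟩

/-- Equivalent vertices are not distinguished by long words, for all colorings. -/
theorem deep (hk : 3 ≤ k) {w : V → ℕ} (hpos : ∀ v, 0 < w v)
    {out : V → Fin k → V} (hp : ∀ u v, ∃ n, Walk out n u v) {c : V → Equiv.Perm (Fin k)}
    {u : V} {e : Fin k} {v : V} {f : Fin k} {T : Set V} (hg : Good w out c T)
    (hcon : ∀ S, Bal w out c S → Con out u e v f S) (hu : Exc out T u e) (hv : Exc out T v f) :
    ∃ L : ℕ, ∀ y y', (eqv out c T).r y y' → ∀ (c' : V → Equiv.Perm (Fin k)) (z : List (Fin k)),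
      L ≤ z.length → run out c' z y = run out c' z y' := by
  classical
  set s := eqv out c T with hs
  have hsu : ∀ q, s.r q u → q = u := class_single hk hpos hg.bal (hcon T hg.bal) hu
  have hsv : ∀ q, s.r q v → q = v := class_single hk hpos hg.bal (hcon T hg.bal).symm hv
  have hcong : ∀ p q a, s.r p q → s.r (step out c p a) (step out c q a) := by
    intro p q a h y
    exact h (a :: y)
  have hpure : ∀ q, q ≠ u → q ≠ v → ∀ i j, s.r (out q i) (out q j) := by
    intro q h1 h2 i j y
    exact (hcon _ (hg.pr y).bal).1 q h1 h2 i j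
  have hsucc : ∀ p q, s.r p q → p ≠ u → p ≠ v → ∀ i j, s.r (out p i) (out q j) := by
    intro p q h h1 h2 i j
    have h3 : q ≠ u := fun h' => h1 (hsu p (h' ▸ h))
    have h4 : q ≠ v := fun h' => h2 (hsv p (h' ▸ h))
    have h5 := hcong p q i h
    have h6 : s.r (out p i) (step out c p i) := hpure p h1 h2 _ _
    have h7 : s.r (step out c q i) (out q j) := hpure q h3 h4 _ _
    exact s.trans (s.trans h6 h5) h7
  have hwalk : ∀ (n : ℕ) (y y' : V), s.r y y' →
      (∀ j < n, ∀ z, Walk out j y z → z ≠ u ∧ z ≠ v) →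
      ∀ z z', Walk out n y z → Walk out n y' z' → s.r z z' := by
    intro n
    induction n with
    | zero =>
      intro y y' h _ z z' hz hz'
      rw [← show y = z from hz, ← show y' = z' from hz']
      exact h
    | succ n ih =>
      intro y y' h hav z z' hz hz'
      obtain ⟨i, hi⟩ := hz
      obtain ⟨j, hj⟩ := hz'
      have h0 := hav 0 (Nat.succ_pos n) y rfl
      refine ih (out y i) (out y' j) (hsucc y y' h h0.1 h0.2 i j) ?_ z z' hi hj
      intro m hm x hx
      exact hav (m + 1) (Nat.succ_lt_succ hm) x ⟨i, hx⟩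
  have hpair : ∀ y y', ∃ ℓ : ℕ, s.r y y' → ∀ (c' : V → Equiv.Perm (Fin k)) (z : List (Fin k)),
      ℓ ≤ z.length → run out c' z y = run out c' z y' := by
    intro y y'
    have hex : ∃ n, ∃ z, Walk out n y z ∧ (z = u ∨ z = v) := by
      obtain ⟨n, hn⟩ := hp y u
      exact ⟨n, u, hn, Or.inl rfl⟩
    refine ⟨Nat.find hex, fun h c' z hz => ?_⟩
    obtain ⟨z0, hz0, hz0'⟩ := Nat.find_spec hex
    have hav : ∀ j < Nat.find hex, ∀ z, Walk out j y z → z ≠ u ∧ z ≠ v := by
      intro j hj z hz
      have := Nat.find_min hex hj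
      push Not at this
      exact this z hz
    have hend : ∀ y'', s.r y y'' → ∀ x, Walk out (Nat.find hex) y'' x → x = z0 := by
      intro y'' hy'' x hx
      have h1 := hwalk _ y y'' hy'' hav z0 x hz0 hx
      rcases hz0' with h2 | h2
      · rw [h2] at h1 ⊢
        exact hsu x (s.symm h1)
      · rw [h2] at h1 ⊢
        exact hsv x (s.symm h1)
    have hsplit : ∀ y'', s.r y y'' → run out c' z y'' = run out c' (z.drop (Nat.find hex)) z0 := by
      intro y'' hy''
      have h1 : run out c' z y'' = run out c' (z.drop (Nat.find hex))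
          (run out c' (z.take (Nat.find hex)) y'') := by
        rw [← run_append, List.take_append_drop]
      rw [h1]
      congr 1
      apply hend y'' hy''
      have h2 := walk_run out c' (z.take (Nat.find hex)) y''
      rw [List.length_take, min_eq_left hz] at h2
      exact h2
    rw [hsplit y (s.refl y), hsplit y' h]
  choose ℓ hℓ using hpair
  refine ⟨∑ y, ∑ y', ℓ y y', fun y y' h c' z hz => hℓ y y' h c' z (le_trans ?_ hz)⟩
  calc ℓ y y' ≤ ∑ y', ℓ y y' := Finset.single_le_sum (f := fun y' => ℓ y y')
        (fun _ _ => Nat.zero_le _) (Finset.mem_univ y')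
    _ ≤ _ := Finset.single_le_sum (f := fun y => ∑ y', ℓ y y')
        (fun _ _ => Nat.zero_le _) (Finset.mem_univ y)

/-- The colors of the exceptional edges coincide. -/
theorem coincide (hk : 3 ≤ k) {w : V → ℕ} (hpos : ∀ v, 0 < w v)
    {out : V → Fin k → V} {c' : V → Equiv.Perm (Fin k)}
    {u : V} {e : Fin k} {v : V} {f : Fin k} {S : Set V} (hb : Bal w out c' S)
    (hcon : Con out u e v f S) (hm : Mixed out u S) : c' u e = c' v f := by
  -- `e` is exceptional
  have hexc : Exc out S u e := by
    intro i hi h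
    have hall : ∀ j, out u j ∈ S ↔ out u e ∈ S := by
      intro j
      by_cases hj : j = e
      · rw [hj]
      · exact (hcon.2.1 j i hj hi).trans h
    obtain ⟨⟨i1, hi1⟩, ⟨i2, hi2⟩⟩ := hm
    exact hi2 ((hall i2).mpr ((hall i1).mp hi1))
  by_contra hne
  obtain ⟨b, hb1, hb2⟩ := exists_third hk (c' u e) (c' v f)
  have h1 := cmp1 hpos hb u (c' u e) b (fun q hq => by
    by_cases hqv : q = v
    · rw [hqv]
      unfold step
      apply hcon.2.2
      · intro h
        apply hne
        rw [← h, Equiv.apply_symm_apply]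
      · intro h
        apply hb2
        rw [← h, Equiv.apply_symm_apply]
    · unfold step
      exact hcon.1 q hq hqv _ _)
  unfold step at h1
  rw [Equiv.symm_apply_apply] at h1
  have h2 : (c' u).symm b ≠ e := by
    intro h
    apply hb1
    rw [← h, Equiv.apply_symm_apply]
  exact hexc _ h2 h1.symm

/-- If one coloring is not synchronizing and not bad, then in all colorings which are not
synchronizing two fixed edges have the same color. -/
theorem rigid (hk : 3 ≤ k) (hkV : Fintype.card V < k) {w : V → ℕ} (hpos : ∀ v, 0 < w v)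
    {out : V → Fin k → V} (hp : Primitive out) (hw : Stationary out w)
    {c : V → Equiv.Perm (Fin k)} (hc : ¬ Synchronizing out c) (hTI : ¬ TI w out c)
    (hTII : ¬ TII out c) [Nonempty V] :
    ∃ (u v : V) (e f : Fin k), u ≠ v ∧
      ∀ c' : V → Equiv.Perm (Fin k), ¬ Synchronizing out c' → c' u e = c' v f := by
  have hk0 : 0 < k := by omega
  obtain ⟨T0, hT0, hg0⟩ := exists_good hpos out hp.1 hw c hc
  obtain ⟨y, u, hmix⟩ := exists_mixed_pre hk0 out hp c T0 hT0
  set T := pre out c y T0 with hT
  have hg : Good w out c T := hg0.pr y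
  obtain ⟨e, hu⟩ := exc_of_mixed hmix (fun ht => hTI ⟨T, u, ht, hg.bal⟩)
  obtain ⟨v, f, hvu, hv, hcc⟩ := partner hk hkV hpos hTI hg.bal hu
  have hcon : ∀ S, Bal w out c S → Con out u e v f S := fun S hS =>
    con_of_bal hk hkV hpos hTI hTII hu.sgl hv.sgl hvu.symm hcc.symm hS
  obtain ⟨L, hL⟩ := deep hk hpos hp.1 hg hcon hu hv
  refine ⟨u, v, e, f, hvu.symm, fun c' hc' => ?_⟩
  obtain ⟨T', hT', hg'⟩ := exists_good hpos out hp.1 hw c' hc'
  let z0 : List (Fin k) := List.replicate L ⟨0, hk0⟩
  have hT1 := hg'.nontriv hpos hT' z0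
  have hg1 := hg'.pr z0
  obtain ⟨y', p, hp'⟩ := exists_mixed_pre hk0 out hp c' _ hT1
  set S := pre out c' y' (pre out c' z0 T') with hS
  have hgS : Good w out c' S := hg1.pr y'
  have hSeq : ∀ a b, (eqv out c T).r a b → (a ∈ S ↔ b ∈ S) := by
    intro a b hab
    have h1 : ∀ x, x ∈ S ↔ run out c' (y' ++ z0) x ∈ T' := by
      intro x
      rw [run_append]
      exact Iff.rfl
    rw [h1, h1, hL a b hab c' (y' ++ z0) (by simp [z0])]
  have hconS : Con out u e v f S := by
    refine ⟨fun q h1 h2 i j => hSeq _ _ ?_, fun i j h1 h2 => hSeq _ _ ?_,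
      fun i j h1 h2 => hSeq _ _ ?_⟩
    · intro x; exact (hcon _ (hg.pr x).bal).1 q h1 h2 i j
    · intro x; exact (hcon _ (hg.pr x).bal).2.1 i j h1 h2
    · intro x; exact (hcon _ (hg.pr x).bal).2.2 i j h1 h2
  by_cases hpu : p = u
  · rw [hpu] at hp'
    exact coincide hk hpos hgS.bal hconS hp'
  · by_cases hpv : p = v
    · rw [hpv] at hp'
      exact (coincide hk hpos hgS.bal hconS.symm hp').symm
    · exfalso
      obtain ⟨⟨i, hi⟩, ⟨j, hj⟩⟩ := hp'
      exact hj ((hconS.1 p hpu hpv i j).mp hi)

end structure_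

/-! ### Counting -/

section counting
variable [Fintype V]

open Classical in
/-- Coincidence of two colors, within a set of colorings closed under changes at `p`. -/
theorem count_one (D : Finset (V → Equiv.Perm (Fin k))) (p q : V) (e f : Fin k) (hpq : p ≠ q)
    (hD : ∀ c ∈ D, ∀ σ, Function.update c p σ ∈ D) :
    (D.filter fun c => c p e = c q f).card * k ≤ D.card := by
  have h1 : (D.filter fun c => c p e = c q f).card * k
      = ((D.filter fun c => c p e = c q f) ×ˢ (Finset.univ : Finset (Fin k))).card := by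
    rw [Finset.card_product, Finset.card_univ, Fintype.card_fin]
  rw [h1]
  apply Finset.card_le_card_of_injOn
    (fun z => Function.update z.1 p (Equiv.swap (z.1 p e) z.2 * z.1 p))
  · rintro ⟨c, i⟩ hz
    rw [Finset.mem_coe, Finset.mem_product, Finset.mem_filter] at hz
    exact hD c hz.1.1 _
  · rintro ⟨c, i⟩ hz ⟨c', i'⟩ hz' h
    rw [Finset.mem_coe, Finset.mem_product, Finset.mem_filter] at hz hz'
    simp only at hz hz'
    have hrest : ∀ v, v ≠ p → c v = c' v := by
      intro v hv
      have h1 := congrFun h v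
      simp only at h1
      rw [Function.update_of_ne hv, Function.update_of_ne hv] at h1
      exact h1
    have hval : c p e = c' p e := by
      rw [hz.1.2, hz'.1.2, hrest q hpq.symm]
    have hp := congrFun h p
    simp only at hp
    rw [Function.update_self, Function.update_self, ← hval] at hp
    have hi : i = i' := by
      have h2 := congrArg (fun σ : Equiv.Perm (Fin k) => σ e) hp
      simp only [Equiv.Perm.mul_apply] at h2
      rw [Equiv.swap_apply_left, ← hval, Equiv.swap_apply_left] at h2
      exact h2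
    subst hi
    have hcp : c p = c' p := mul_left_cancel hp
    have hcc : c = c' := by
      funext v
      by_cases hv : v = p
      · rw [hv]; exact hcp
      · exact hrest v hv
    rw [hcc]

open Classical in
/-- Coincidences of the colors of two edges of `p` with colors at other vertices. -/
theorem count_two (p q q' : V) (e e' f f' : Fin k) (hq : p ≠ q) (hq' : p ≠ q') (hee : e ≠ e') :
    ((Finset.univ : Finset (V → Equiv.Perm (Fin k))).filter
      fun c => c p e = c q f ∧ c p e' = c q' f').card * (k * k - k)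
      ≤ Fintype.card (V → Equiv.Perm (Fin k)) := by
  set D := (Finset.univ : Finset (V → Equiv.Perm (Fin k))).filter
      fun c => c p e = c q f ∧ c p e' = c q' f' with hD
  have h1 : D.card * (k * k - k)
      = (D ×ˢ (Finset.univ : Finset (Fin k)).offDiag).card := by
    rw [Finset.card_product, Finset.offDiag_card, Finset.card_univ, Fintype.card_fin]
  rw [h1, ← Finset.card_univ]
  let π : Fin k → Fin k → Fin k → Fin k → Equiv.Perm (Fin k) := fun α β i j =>
    Equiv.swap (Equiv.swap α i β) j * Equiv.swap α i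
  have hπ1 : ∀ α β i j, α ≠ β → i ≠ j → π α β i j α = i := by
    intro α β i j hαβ hij
    show Equiv.swap (Equiv.swap α i β) j (Equiv.swap α i α) = i
    rw [Equiv.swap_apply_left]
    apply Equiv.swap_apply_of_ne_of_ne
    · intro h
      have h2 : Equiv.swap α i α = Equiv.swap α i β := by
        rw [Equiv.swap_apply_left]; exact h
      exact hαβ ((Equiv.swap α i).injective h2)
    · exact hij
  have hπ2 : ∀ α β i j, π α β i j β = j := by
    intro α β i j
    show Equiv.swap (Equiv.swap α i β) j (Equiv.swap α i β) = j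
    rw [Equiv.swap_apply_left]
  apply Finset.card_le_card_of_injOn
    (fun z => Function.update z.1 p (π (z.1 p e) (z.1 p e') z.2.1 z.2.2 * z.1 p))
  · intro z _
    exact Finset.mem_coe.mpr (Finset.mem_univ _)
  · rintro ⟨c, i, j⟩ hz ⟨c', i', j'⟩ hz' h
    rw [Finset.mem_coe, Finset.mem_product, hD, Finset.mem_filter, Finset.mem_offDiag] at hz hz'
    obtain ⟨⟨-, ha, hb⟩, -, -, hij⟩ := hz
    obtain ⟨⟨-, ha', hb'⟩, -, -, hij'⟩ := hz'
    simp only at ha hb ha' hb' hij hij'
    have hrest : ∀ v, v ≠ p → c v = c' v := by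
      intro v hv
      have h1 := congrFun h v
      simp only at h1
      rw [Function.update_of_ne hv, Function.update_of_ne hv] at h1
      exact h1
    have hval : c p e = c' p e := by
      rw [ha, ha', hrest q hq.symm]
    have hval' : c p e' = c' p e' := by
      rw [hb, hb', hrest q' hq'.symm]
    have hne : c p e ≠ c p e' := fun h0 => hee ((c p).injective h0)
    have hp := congrFun h p
    simp only at hp
    rw [Function.update_self, Function.update_self, ← hval, ← hval'] at hp
    have hi : i = i' := by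
      have h2 := congrArg (fun σ : Equiv.Perm (Fin k) => σ e) hp
      simp only [Equiv.Perm.mul_apply] at h2
      rw [hπ1 _ _ _ _ hne hij, ← hval, hπ1 _ _ _ _ hne hij'] at h2
      exact h2
    have hj : j = j' := by
      have h2 := congrArg (fun σ : Equiv.Perm (Fin k) => σ e') hp
      simp only [Equiv.Perm.mul_apply] at h2
      rw [hπ2, ← hval', hπ2] at h2
      exact h2
    subst hi
    subst hj
    have hcp : c p = c' p := mul_left_cancel hp
    have hcc : c = c' := by
      funext v
      by_cases hv : v = p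
      · rw [hv]; exact hcp
      · exact hrest v hv
    rw [hcc]

open Classical in
/-- Two different coincidences. -/
theorem count_pair (u1 u2 u3 u4 : V) (e1 e2 e3 e4 : Fin k) (h12 : u1 ≠ u2)
    (h34 : u3 ≠ u4) (h1 : ¬ (u3 = u1 ∧ e3 = e1)) (h2 : ¬ (u3 = u2 ∧ e3 = e2)) :
    ((Finset.univ : Finset (V → Equiv.Perm (Fin k))).filter
      fun c => c u1 e1 = c u2 e2 ∧ c u3 e3 = c u4 e4).card * (k * k - k)
      ≤ Fintype.card (V → Equiv.Perm (Fin k)) := by
  by_cases h31 : u3 = u1
  · subst h31
    exact count_two u3 u2 u4 e1 e3 e2 e4 h12 h34 (fun h => h1 ⟨rfl, h.symm⟩)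
  · by_cases h32 : u3 = u2
    · subst h32
      have h3 := count_two u3 u1 u4 e2 e3 e1 e4 h12.symm h34 (fun h => h2 ⟨rfl, h.symm⟩)
      have h4 : ((Finset.univ : Finset (V → Equiv.Perm (Fin k))).filter
          fun c => c u1 e1 = c u3 e2 ∧ c u3 e3 = c u4 e4)
          = ((Finset.univ : Finset (V → Equiv.Perm (Fin k))).filter
          fun c => c u3 e2 = c u1 e1 ∧ c u3 e3 = c u4 e4) := by
        apply Finset.filter_congr
        intro c _
        rw [eq_comm (a := c u1 e1)]
      rw [h4]
      exact h3
    · set D := (Finset.univ : Finset (V → Equiv.Perm (Fin k))).filter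
        fun c => c u1 e1 = c u2 e2 with hD
      have h3 := count_one D u3 u4 e3 e4 h34 (by
        intro c hc σ
        rw [hD, Finset.mem_filter] at hc ⊢
        refine ⟨Finset.mem_univ _, ?_⟩
        rw [Function.update_of_ne (Ne.symm h31), Function.update_of_ne (Ne.symm h32)]
        exact hc.2)
      have h4 := count_one (Finset.univ : Finset (V → Equiv.Perm (Fin k))) u1 u2 e1 e2 h12
        (fun c _ σ => Finset.mem_univ _)
      rw [← hD, Finset.card_univ] at h4
      have h5 : ((Finset.univ : Finset (V → Equiv.Perm (Fin k))).filter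
          fun c => c u1 e1 = c u2 e2 ∧ c u3 e3 = c u4 e4)
          = D.filter fun c => c u3 e3 = c u4 e4 := by
        rw [hD, Finset.filter_filter]
      rw [h5]
      set m := (D.filter fun c => c u3 e3 = c u4 e4).card
      calc m * (k * k - k) ≤ m * (k * k) := Nat.mul_le_mul_left _ (Nat.sub_le _ _)
        _ = m * k * k := by ring
        _ ≤ D.card * k := Nat.mul_le_mul_right _ h3
        _ ≤ _ := h4

theorem choose_two_le {m : ℕ} (h2 : 2 ≤ m) : m + 2 ≤ k → k.choose 2 ≤ k.choose m := by
  have key : ∀ m, 2 ≤ m → m ≤ k / 2 → k.choose 2 ≤ k.choose m := by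
    intro m hm
    induction m, hm using Nat.le_induction with
    | base => intro _; exact le_rfl
    | succ m hm ih =>
      intro h
      exact (ih (by omega)).trans (Nat.choose_le_succ_of_lt_half_left (by omega))
  intro h
  by_cases hm : m ≤ k / 2
  · exact key m h2 hm
  · rw [← Nat.choose_symm (show m ≤ k by omega)]
    exact key (k - m) (by omega) (by omega)

open Classical in
/-- The stabilizer of a set of at least two colors with complement of at least two colors. -/
theorem card_stab (F : Finset (Fin k)) (h1 : 2 ≤ F.card) (h2 : F.card + 2 ≤ k) :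
    Nat.card {g : Equiv.Perm (Fin k) // ∀ x, g x ∈ F ↔ x ∈ F} * (k * k - k)
      ≤ 2 * k.factorial := by
  have hcard : Nat.card {g : Equiv.Perm (Fin k) // ∀ x, g x ∈ F ↔ x ∈ F}
      ≤ F.card.factorial * (k - F.card).factorial := by
    have hinj : Function.Injective
        (fun g : {g : Equiv.Perm (Fin k) // ∀ x, g x ∈ F ↔ x ∈ F} =>
          ((g.1.subtypePerm (p := fun x => x ∈ F) (fun x => g.2 x),
            g.1.subtypePerm (p := fun x => x ∉ F) (fun x => not_congr (g.2 x))) :
            Equiv.Perm {x // x ∈ F} × Equiv.Perm {x // x ∉ F})) := by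
      rintro ⟨g, hg⟩ ⟨g', hg'⟩ h
      rw [Prod.mk.injEq] at h
      apply Subtype.ext
      ext x
      by_cases hx : x ∈ F
      · have h3 := congrArg (fun σ : Equiv.Perm {x // x ∈ F} => ((σ ⟨x, hx⟩ : Fin k) : ℕ)) h.1
        simpa using h3
      · have h3 := congrArg (fun σ : Equiv.Perm {x // x ∉ F} => ((σ ⟨x, hx⟩ : Fin k) : ℕ)) h.2
        simpa using h3
    have h3 := Nat.card_le_card_of_injective _ hinj
    rw [Nat.card_prod, Nat.card_eq_fintype_card (α := Equiv.Perm {x // x ∈ F}),
      Nat.card_eq_fintype_card (α := Equiv.Perm {x // x ∉ F}), Fintype.card_perm,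
      Fintype.card_perm, Fintype.card_coe, Fintype.card_subtype_compl, Fintype.card_fin,
      Fintype.card_coe] at h3
    exact h3
  have h3 : k.choose F.card * F.card.factorial * (k - F.card).factorial = k.factorial :=
    Nat.choose_mul_factorial_mul_factorial (by omega)
  have h4 : k.choose 2 ≤ k.choose F.card := choose_two_le h1 h2
  have h5 : k * k - k = 2 * k.choose 2 := by
    rw [Nat.choose_two_right]
    have h6 : 2 ∣ k * (k - 1) := (Nat.even_mul_pred_self k).two_dvd
    rw [Nat.mul_div_cancel' h6, Nat.mul_sub_one]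
  calc _ ≤ (F.card.factorial * (k - F.card).factorial) * (2 * k.choose F.card) := by
        rw [h5]
        exact Nat.mul_le_mul hcard (by omega)
    _ = 2 * (k.choose F.card * F.card.factorial * (k - F.card).factorial) := by ring
    _ = 2 * k.factorial := by rw [h3]

open Classical in
/-- A balanced set with a thick vertex. -/
theorem count_thick {w : V → ℕ} (hpos : ∀ v, 0 < w v) (out : V → Fin k → V) (T : Set V) (u : V)
    (ht : Thick out u T) :
    ((Finset.univ : Finset (V → Equiv.Perm (Fin k))).filter fun c => Bal w out c T).card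
      * (k * k - k) ≤ 2 * Fintype.card (V → Equiv.Perm (Fin k)) := by
  set D := (Finset.univ : Finset (V → Equiv.Perm (Fin k))).filter fun c => Bal w out c T with hD
  set F : Finset (Fin k) := Finset.univ.filter fun i => out u i ∈ T with hF
  have hFm : ∀ i, i ∈ F ↔ out u i ∈ T := by intro i; rw [hF]; simp
  have hF1 : 2 ≤ F.card := by
    obtain ⟨i, j, hij, hi, hj⟩ := ht.1
    have : ({i, j} : Finset (Fin k)) ⊆ F := by
      intro x hx
      rw [Finset.mem_insert, Finset.mem_singleton] at hx
      rcases hx with h | h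
      · rw [h, hFm]; exact hi
      · rw [h, hFm]; exact hj
    have h3 := Finset.card_le_card this
    rw [Finset.card_pair hij] at h3
    exact h3
  have hF2 : F.card + 2 ≤ k := by
    obtain ⟨i, j, hij, hi, hj⟩ := ht.2
    have : ({i, j} : Finset (Fin k)) ⊆ Fᶜ := by
      intro x hx
      rw [Finset.mem_insert, Finset.mem_singleton] at hx
      rw [Finset.mem_compl, hFm]
      rcases hx with h | h
      · rw [h]; exact hi
      · rw [h]; exact hj
    have h3 := Finset.card_le_card this
    rw [Finset.card_pair hij, Finset.card_compl, Fintype.card_fin] at h3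
    have h4 := Finset.card_le_univ F
    rw [Fintype.card_fin] at h4
    omega
  -- the status of the colors at `u` is determined by the other vertices
  have hdet : ∀ c ∈ D, ∀ c' ∈ D, (∀ v, v ≠ u → c v = c' v) → ∀ a,
      step out c u a ∈ T → step out c' u a ∈ T := by
    intro c hc c' hc' h a ha
    rw [hD, Finset.mem_filter] at hc hc'
    by_contra hcon
    have h1 : {v | step out c' v a ∈ T} ⊆ {v | step out c v a ∈ T} := by
      intro v hv
      by_cases hvu : v = u
      · rw [hvu]; exact ha
      · have h2 : step out c v a = step out c' v a := by unfold step; rw [h v hvu]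
        show step out c v a ∈ T
        rw [h2]
        exact hv
    have h3 := mono_wt hpos (by rw [hc.2 a, hc'.2 a]) h1 ha
    exact hcon h3
  -- reference colorings
  let R : (V → Equiv.Perm (Fin k)) → Equiv.Perm (Fin k) := fun ρ =>
    if h : ∃ c ∈ D, Function.update c u 1 = ρ then h.choose u else 1
  have hR : ∀ c ∈ D, ∀ x, ((R (Function.update c u 1))⁻¹ * c u) x ∈ F ↔ x ∈ F := by
    intro c hc x
    have h : ∃ c' ∈ D, Function.update c' u 1 = Function.update c u 1 := ⟨c, hc, rfl⟩
    have hRc : R (Function.update c u 1) = h.choose u := by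
      show (if h : ∃ c' ∈ D, Function.update c' u 1 = Function.update c u 1 then h.choose u else 1) = _
      rw [dif_pos h]
    obtain ⟨hD', hup⟩ := h.choose_spec
    set c' := h.choose with hc'
    have hrest : ∀ v, v ≠ u → c' v = c v := by
      intro v hv
      have h1 := congrFun hup v
      rw [Function.update_of_ne hv, Function.update_of_ne hv] at h1
      exact h1
    rw [hRc, Equiv.Perm.mul_apply, hFm, hFm]
    have h1 : (c' u)⁻¹ (c u x) = (c' u).symm (c u x) := rfl
    rw [h1]
    have h2 : out u x = step out c u (c u x) := by unfold step; rw [Equiv.symm_apply_apply]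
    rw [h2]
    exact ⟨fun h' => hdet c' hD' c hc hrest _ h',
      fun h' => hdet c hc c' hD' (fun v hv => (hrest v hv).symm) _ h'⟩
  let N := {c : V → Equiv.Perm (Fin k) // c ∈ D}
  let Φ : N × Equiv.Perm (Fin k) →
      (V → Equiv.Perm (Fin k)) × {g : Equiv.Perm (Fin k) // ∀ x, g x ∈ F ↔ x ∈ F} := fun z =>
    (Function.update z.1.1 u z.2, ⟨(R (Function.update z.1.1 u 1))⁻¹ * z.1.1 u, hR z.1.1 z.1.2⟩)
  have hΦ : Function.Injective Φ := by
    rintro ⟨⟨c, hc⟩, σ⟩ ⟨⟨c', hc'⟩, σ'⟩ h
    simp only [Φ, Prod.mk.injEq, Subtype.mk.injEq] at h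
    obtain ⟨h1, h2⟩ := h
    have hrest : ∀ v, v ≠ u → c v = c' v := by
      intro v hv
      have h3 := congrFun h1 v
      rw [Function.update_of_ne hv, Function.update_of_ne hv] at h3
      exact h3
    have hσ : σ = σ' := by
      have h3 := congrFun h1 u
      rw [Function.update_self, Function.update_self] at h3
      exact h3
    have hup : Function.update c u (1 : Equiv.Perm (Fin k)) = Function.update c' u 1 := by
      funext v
      by_cases hv : v = u
      · rw [hv, Function.update_self, Function.update_self]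
      · rw [Function.update_of_ne hv, Function.update_of_ne hv]
        exact hrest v hv
    rw [hup] at h2
    have hcu : c u = c' u := mul_left_cancel h2
    have hcc : c = c' := by
      funext v
      by_cases hv : v = u
      · rw [hv]; exact hcu
      · exact hrest v hv
    subst hcc
    subst hσ
    rfl
  have hcard := Nat.card_le_card_of_injective Φ hΦ
  rw [Nat.card_prod, Nat.card_prod, Nat.card_eq_fintype_card (α := Equiv.Perm (Fin k)),
    Fintype.card_perm, Fintype.card_fin, Nat.card_eq_fintype_card (α := N),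
    Nat.card_eq_fintype_card (α := V → Equiv.Perm (Fin k)), Fintype.card_coe] at hcard
  have hst := card_stab F hF1 hF2
  set st := Nat.card {g : Equiv.Perm (Fin k) // ∀ x, g x ∈ F ↔ x ∈ F}
  have hfac := Nat.factorial_pos k
  have h6 : D.card * (k * k - k) * k.factorial
      ≤ 2 * Fintype.card (V → Equiv.Perm (Fin k)) * k.factorial := by
    calc D.card * (k * k - k) * k.factorial = (D.card * k.factorial) * (k * k - k) := by ring
      _ ≤ (Fintype.card (V → Equiv.Perm (Fin k)) * st) * (k * k - k) :=
          Nat.mul_le_mul_right _ hcard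
      _ = Fintype.card (V → Equiv.Perm (Fin k)) * (st * (k * k - k)) := by ring
      _ ≤ Fintype.card (V → Equiv.Perm (Fin k)) * (2 * k.factorial) :=
          Nat.mul_le_mul_left _ hst
      _ = _ := by ring
  exact Nat.le_of_mul_le_mul_right h6 hfac

open Classical in
theorem count_TI {w : V → ℕ} (hpos : ∀ v, 0 < w v) (out : V → Fin k → V) :
    ((Finset.univ : Finset (V → Equiv.Perm (Fin k))).filter fun c => TI w out c).card
      * (k * k - k)
      ≤ (2 ^ Fintype.card V * Fintype.card V) * (2 * Fintype.card (V → Equiv.Perm (Fin k))) := by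
  have h1 : ((Finset.univ : Finset (V → Equiv.Perm (Fin k))).filter fun c => TI w out c)
      ⊆ (Finset.univ : Finset (Set V × V)).biUnion fun x =>
        (Finset.univ : Finset (V → Equiv.Perm (Fin k))).filter
          fun c => Thick out x.2 x.1 ∧ Bal w out c x.1 := by
    intro c hc
    rw [Finset.mem_filter] at hc
    obtain ⟨T, u, ht, hb⟩ := hc.2
    rw [Finset.mem_biUnion]
    refine ⟨(T, u), Finset.mem_univ _, ?_⟩
    rw [Finset.mem_filter]
    exact ⟨Finset.mem_univ _, ht, hb⟩
  have h2 : ∀ x : Set V × V, ((Finset.univ : Finset (V → Equiv.Perm (Fin k))).filter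
      fun c => Thick out x.2 x.1 ∧ Bal w out c x.1).card * (k * k - k)
      ≤ 2 * Fintype.card (V → Equiv.Perm (Fin k)) := by
    intro x
    by_cases ht : Thick out x.2 x.1
    · simp only [ht, true_and]
      exact count_thick hpos out x.1 x.2 ht
    · simp only [ht, false_and, Finset.filter_false, Finset.card_empty, zero_mul]
      exact Nat.zero_le _
  calc _ ≤ (∑ x : Set V × V, ((Finset.univ : Finset (V → Equiv.Perm (Fin k))).filter
        fun c => Thick out x.2 x.1 ∧ Bal w out c x.1).card) * (k * k - k) :=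
        Nat.mul_le_mul_right _ ((Finset.card_le_card h1).trans Finset.card_biUnion_le)
    _ = ∑ x : Set V × V, ((Finset.univ : Finset (V → Equiv.Perm (Fin k))).filter
        fun c => Thick out x.2 x.1 ∧ Bal w out c x.1).card * (k * k - k) := by
        rw [Finset.sum_mul]
    _ ≤ ∑ _x : Set V × V, 2 * Fintype.card (V → Equiv.Perm (Fin k)) :=
        Finset.sum_le_sum fun x _ => h2 x
    _ = _ := by
        rw [Finset.sum_const, Finset.card_univ, Fintype.card_prod, Fintype.card_set, smul_eq_mul]

open Classical in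
theorem count_TII (out : V → Fin k → V) :
    ((Finset.univ : Finset (V → Equiv.Perm (Fin k))).filter fun c => TII out c).card
      * (k * k - k)
      ≤ (Fintype.card V) ^ 8 * Fintype.card (V → Equiv.Perm (Fin k)) := by
  let I := (V × V) × (V × V) × (V × V) × (V × V)
  let P : I → (V → Equiv.Perm (Fin k)) → Prop := fun x c =>
    ∃ e1 e2 e3 e4 : Fin k, (out x.1.1 e1 = x.1.2 ∧ out x.2.1.1 e2 = x.2.1.2 ∧
      out x.2.2.1.1 e3 = x.2.2.1.2 ∧ out x.2.2.2.1 e4 = x.2.2.2.2) ∧
      (Sgl out x.1.1 e1 ∧ Sgl out x.2.1.1 e2 ∧ Sgl out x.2.2.1.1 e3 ∧ Sgl out x.2.2.2.1 e4) ∧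
      x.1.1 ≠ x.2.1.1 ∧ x.2.2.1.1 ≠ x.2.2.2.1 ∧
      c x.1.1 e1 = c x.2.1.1 e2 ∧ c x.2.2.1.1 e3 = c x.2.2.2.1 e4 ∧
      ¬ (x.2.2.1.1 = x.1.1 ∧ e3 = e1) ∧ ¬ (x.2.2.1.1 = x.2.1.1 ∧ e3 = e2)
  have h1 : ((Finset.univ : Finset (V → Equiv.Perm (Fin k))).filter fun c => TII out c)
      ⊆ (Finset.univ : Finset I).biUnion fun x =>
        (Finset.univ : Finset (V → Equiv.Perm (Fin k))).filter fun c => P x c := by
    intro c hc
    rw [Finset.mem_filter] at hc
    obtain ⟨u1, e1, u2, e2, u3, e3, u4, e4, s1, s2, s3, s4, h12, h34, hc1, hc2, hn1, hn2⟩ := hc.2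
    rw [Finset.mem_biUnion]
    refine ⟨((u1, out u1 e1), (u2, out u2 e2), (u3, out u3 e3), (u4, out u4 e4)),
      Finset.mem_univ _, ?_⟩
    rw [Finset.mem_filter]
    exact ⟨Finset.mem_univ _, e1, e2, e3, e4, ⟨rfl, rfl, rfl, rfl⟩, ⟨s1, s2, s3, s4⟩, h12, h34,
      hc1, hc2, hn1, hn2⟩
  have h2 : ∀ x : I, ((Finset.univ : Finset (V → Equiv.Perm (Fin k))).filter
      fun c => P x c).card * (k * k - k) ≤ Fintype.card (V → Equiv.Perm (Fin k)) := by
    intro x
    by_cases hx : ∃ c, P x c
    · obtain ⟨c0, e1, e2, e3, e4, ⟨t1, t2, t3, t4⟩, ⟨s1, s2, s3, s4⟩, h12, h34, -, -, hn1, hn2⟩ := hx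
      refine le_trans (Nat.mul_le_mul_right _ (Finset.card_le_card ?_))
        (count_pair x.1.1 x.2.1.1 x.2.2.1.1 x.2.2.2.1 e1 e2 e3 e4 h12 h34 hn1 hn2)
      intro c hc
      rw [Finset.mem_filter] at hc ⊢
      obtain ⟨-, e1', e2', e3', e4', ⟨t1', t2', t3', t4'⟩, -, -, -, hc1, hc2, -, -⟩ := hc
      rw [s1 e1' (by rw [t1', t1]), s2 e2' (by rw [t2', t2])] at hc1
      rw [s3 e3' (by rw [t3', t3]), s4 e4' (by rw [t4', t4])] at hc2
      exact ⟨Finset.mem_univ _, hc1, hc2⟩
    · push Not at hx
      have h3 : ((Finset.univ : Finset (V → Equiv.Perm (Fin k))).filter fun c => P x c) = ∅ := by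
        apply Finset.filter_eq_empty_iff.mpr
        intro c _
        exact hx c
      rw [h3, Finset.card_empty, zero_mul]
      exact Nat.zero_le _
  calc _ ≤ (∑ x : I, ((Finset.univ : Finset (V → Equiv.Perm (Fin k))).filter
        fun c => P x c).card) * (k * k - k) :=
        Nat.mul_le_mul_right _ ((Finset.card_le_card h1).trans Finset.card_biUnion_le)
    _ = ∑ x : I, ((Finset.univ : Finset (V → Equiv.Perm (Fin k))).filter
        fun c => P x c).card * (k * k - k) := by
        rw [Finset.sum_mul]
    _ ≤ ∑ _x : I, Fintype.card (V → Equiv.Perm (Fin k)) :=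
        Finset.sum_le_sum fun x _ => h2 x
    _ = _ := by
        rw [Finset.sum_const, Finset.card_univ, smul_eq_mul]
        congr 1
        simp only [I, Fintype.card_prod]
        ring

open Classical in
/-- The conjectured bound for all sufficiently large numbers of colors. -/
theorem large (out : V → Fin k → V) (hp : Primitive out)
    (hkn : Fintype.card V ^ 8 + Fintype.card V * 2 ^ (Fintype.card V + 1) < k) :
    1 - 1 / (k : ℝ) ≤ ratio out := by
  have hV : Nonempty V := by
    by_contra hV
    rw [not_nonempty_iff] at hV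
    have := hp.2 2 (fun n v _ => (hV.false v).elim)
    omega
  set n := Fintype.card V with hn
  have hn1 : 1 ≤ n := Fintype.card_pos
  have hpow : 4 ≤ 2 ^ (n + 1) := by
    calc 4 = 2 ^ 2 := by norm_num
      _ ≤ 2 ^ (n + 1) := Nat.pow_le_pow_right (by norm_num) (by omega)
  have hnk : n * 4 ≤ n * 2 ^ (n + 1) := Nat.mul_le_mul_left _ hpow
  have hk3 : 3 ≤ k := by omega
  have hk0 : 0 < k := by omega
  have hkV : Fintype.card V < k := by omega
  obtain ⟨w, hne, hw⟩ := exists_stationary out
  have hpos := pos_of out hp.1 w hw hne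
  apply ratio_ge hk0
  rw [Nat.card_eq_fintype_card, Fintype.card_subtype]
  have hN : Fintype.card (V → Equiv.Perm (Fin k)) = k.factorial ^ Fintype.card V := by
    rw [Fintype.card_fun, Fintype.card_perm, Fintype.card_fin]
  rw [← hN]
  by_cases hbad : ∀ c : V → Equiv.Perm (Fin k), ¬ Synchronizing out c → TI w out c ∨ TII out c
  · have h1 : ((Finset.univ : Finset (V → Equiv.Perm (Fin k))).filter
        fun c => ¬ Synchronizing out c)
        ⊆ ((Finset.univ : Finset (V → Equiv.Perm (Fin k))).filter fun c => TI w out c)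
          ∪ ((Finset.univ : Finset (V → Equiv.Perm (Fin k))).filter fun c => TII out c) := by
      intro c hc
      rw [Finset.mem_filter] at hc
      rw [Finset.mem_union, Finset.mem_filter, Finset.mem_filter]
      rcases hbad c hc.2 with h | h
      · exact Or.inl ⟨Finset.mem_univ _, h⟩
      · exact Or.inr ⟨Finset.mem_univ _, h⟩
    have h2 := (Finset.card_le_card h1).trans (Finset.card_union_le _ _)
    have h3 := count_TI hpos out
    have h4 := count_TII out
    set N := Fintype.card (V → Equiv.Perm (Fin k))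
    set a := ((Finset.univ : Finset (V → Equiv.Perm (Fin k))).filter fun c => TI w out c).card
    set b := ((Finset.univ : Finset (V → Equiv.Perm (Fin k))).filter fun c => TII out c).card
    set m := ((Finset.univ : Finset (V → Equiv.Perm (Fin k))).filter
      fun c => ¬ Synchronizing out c).card
    have h5 : m * (k * k - k) ≤ N * (n ^ 8 + n * 2 ^ (n + 1)) := by
      calc m * (k * k - k) ≤ (a + b) * (k * k - k) := Nat.mul_le_mul_right _ h2
        _ = a * (k * k - k) + b * (k * k - k) := by ring
        _ ≤ (2 ^ n * n) * (2 * N) + n ^ 8 * N := Nat.add_le_add h3 h4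
        _ = N * (n ^ 8 + n * 2 ^ (n + 1)) := by ring
    have h6 : k * k - k = k * (k - 1) := (Nat.mul_sub_one k k).symm
    rw [h6] at h5
    have h7 : m * k * (k - 1) ≤ N * (k - 1) := by
      calc m * k * (k - 1) = m * (k * (k - 1)) := by ring
        _ ≤ N * (n ^ 8 + n * 2 ^ (n + 1)) := h5
        _ ≤ N * (k - 1) := Nat.mul_le_mul_left _ (by omega)
    exact Nat.le_of_mul_le_mul_right h7 (by omega)
  · push Not at hbad
    obtain ⟨c, hc, hTI, hTII⟩ := hbad
    obtain ⟨u, v, e, f, huv, hall⟩ := rigid hk3 hkV hpos hp hw hc hTI hTII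
    have h1 := count_one (Finset.univ : Finset (V → Equiv.Perm (Fin k))) u v e f huv
      (fun c _ σ => Finset.mem_univ _)
    rw [Finset.card_univ] at h1
    refine le_trans (Nat.mul_le_mul_right _ (Finset.card_le_card ?_)) h1
    intro c' hc'
    rw [Finset.mem_filter] at hc' ⊢
    exact ⟨Finset.mem_univ _, hall c' hc'.2⟩

end counting

end Pool.Agent.Helper695.SR
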