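import Pool.Agent.Helper695_SR.Large

/-!
# The synchronizing ratio when the number of colors is at least `n ^ 12`

A refinement of the counting in `Large.lean`: the union bound over all sets `T` is used only for
sets which split the edges of some vertex into two large parts. For all other sets `T` the colors
of two pairs of edges with few parallel edges coincide.
-/

set_option autoImplicit false
set_option maxHeartbeats 1000000

open Finset

namespace Pool.Agent.Helper695.SR

universe u

variable {V : Type u} {k : ℕ}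

open Classical in
/-- The edges of `u` into `T`. -/
noncomputable def inT (out : V → Fin k → V) (u : V) (T : Set V) : Finset (Fin k) :=
  Finset.univ.filter fun i => out u i ∈ T

open Classical in
theorem mem_inT {out : V → Fin k → V} {u : V} {T : Set V} {i : Fin k} :
    i ∈ inT out u T ↔ out u i ∈ T := by
  unfold inT
  simp

theorem choose_le_mid {r m : ℕ} (h2 : r ≤ m) : m + r ≤ k → k.choose r ≤ k.choose m := by
  have key : ∀ m, r ≤ m → m ≤ k / 2 → k.choose r ≤ k.choose m := by
    intro m hm
    induction m, hm using Nat.le_induction with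
    | base => intro _; exact le_rfl
    | succ m hm ih =>
      intro h
      exact (ih (by omega)).trans (Nat.choose_le_succ_of_lt_half_left (by omega))
  intro h
  by_cases hm : m ≤ k / 2
  · exact key m h2 hm
  · rw [← Nat.choose_symm (show m ≤ k by omega)]
    exact key (k - m) (by omega) (by omega)

open Classical in
/-- The stabilizer of a set of at least `r` colors with complement of at least `r` colors. -/
theorem card_stab' (F : Finset (Fin k)) (r : ℕ) (h1 : r ≤ F.card) (h2 : F.card + r ≤ k) :
    Nat.card {g : Equiv.Perm (Fin k) // ∀ x, g x ∈ F ↔ x ∈ F} * k.choose r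
      ≤ k.factorial := by
  have hcard : Nat.card {g : Equiv.Perm (Fin k) // ∀ x, g x ∈ F ↔ x ∈ F}
      ≤ F.card.factorial * (k - F.card).factorial := by
    have hinj : Function.Injective
        (fun g : {g : Equiv.Perm (Fin k) // ∀ x, g x ∈ F ↔ x ∈ F} =>
          ((g.1.subtypePerm (p := fun x => x ∈ F) (fun x => g.2 x),
            g.1.subtypePerm (p := fun x => x ∉ F) (fun x => not_congr (g.2 x))) :
            Equiv.Perm {x // x ∈ F} × Equiv.Perm {x // x ∉ F})) := by
      rintro ⟨g, hg⟩ ⟨g', hg'⟩ h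
      rw [Prod.mk.injEq] at h
      apply Subtype.ext
      ext x
      by_cases hx : x ∈ F
      · have h3 := congrArg (fun σ : Equiv.Perm {x // x ∈ F} => ((σ ⟨x, hx⟩ : Fin k) : ℕ)) h.1
        simpa using h3
      · have h3 := congrArg (fun σ : Equiv.Perm {x // x ∉ F} => ((σ ⟨x, hx⟩ : Fin k) : ℕ)) h.2
        simpa using h3
    have h3 := Nat.card_le_card_of_injective _ hinj
    rw [Nat.card_prod, Nat.card_eq_fintype_card (α := Equiv.Perm {x // x ∈ F}),
      Nat.card_eq_fintype_card (α := Equiv.Perm {x // x ∉ F}), Fintype.card_perm,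
      Fintype.card_perm, Fintype.card_coe, Fintype.card_subtype_compl, Fintype.card_fin,
      Fintype.card_coe] at h3
    exact h3
  have h3 : k.choose F.card * F.card.factorial * (k - F.card).factorial = k.factorial :=
    Nat.choose_mul_factorial_mul_factorial (by omega)
  have h4 : k.choose r ≤ k.choose F.card := choose_le_mid h1 h2
  calc _ ≤ (F.card.factorial * (k - F.card).factorial) * (k.choose F.card) :=
        Nat.mul_le_mul hcard h4
    _ = (k.choose F.card * F.card.factorial * (k - F.card).factorial) := by ring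
    _ = k.factorial := by rw [h3]

section poly
variable [Fintype V]

open Classical in
/-- A balanced set which splits the edges of `u` into parts of size at least `r`. -/
theorem count_split {w : V → ℕ} (hpos : ∀ v, 0 < w v) (out : V → Fin k → V) (T : Set V) (u : V)
    (r : ℕ) (hF1 : r ≤ (inT out u T).card) (hF2 : (inT out u T).card + r ≤ k) :
    ((Finset.univ : Finset (V → Equiv.Perm (Fin k))).filter fun c => Bal w out c T).card
      * k.choose r ≤ Fintype.card (V → Equiv.Perm (Fin k)) := by
  set D := (Finset.univ : Finset (V → Equiv.Perm (Fin k))).filter fun c => Bal w out c T with hD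
  set F : Finset (Fin k) := inT out u T with hF
  have hFm : ∀ i, i ∈ F ↔ out u i ∈ T := fun i => mem_inT
  -- the status of the colors at `u` is determined by the other vertices
  have hdet : ∀ c ∈ D, ∀ c' ∈ D, (∀ v, v ≠ u → c v = c' v) → ∀ a,
      step out c u a ∈ T → step out c' u a ∈ T := by
    intro c hc c' hc' h a ha
    rw [hD, Finset.mem_filter] at hc hc'
    by_contra hcon
    have h1 : {v | step out c' v a ∈ T} ⊆ {v | step out c v a ∈ T} := by
      intro v hv
      by_cases hvu : v = u
      · rw [hvu]; exact ha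
      · have h2 : step out c v a = step out c' v a := by unfold step; rw [h v hvu]
        show step out c v a ∈ T
        rw [h2]
        exact hv
    have h3 := mono_wt hpos (by rw [hc.2 a, hc'.2 a]) h1 ha
    exact hcon h3
  -- reference colorings
  let R : (V → Equiv.Perm (Fin k)) → Equiv.Perm (Fin k) := fun ρ =>
    if h : ∃ c ∈ D, Function.update c u 1 = ρ then h.choose u else 1
  have hR : ∀ c ∈ D, ∀ x, ((R (Function.update c u 1))⁻¹ * c u) x ∈ F ↔ x ∈ F := by
    intro c hc x
    have h : ∃ c' ∈ D, Function.update c' u 1 = Function.update c u 1 := ⟨c, hc, rfl⟩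
    have hRc : R (Function.update c u 1) = h.choose u := by
      show (if h : ∃ c' ∈ D, Function.update c' u 1 = Function.update c u 1 then h.choose u else 1) = _
      rw [dif_pos h]
    obtain ⟨hD', hup⟩ := h.choose_spec
    set c' := h.choose with hc'
    have hrest : ∀ v, v ≠ u → c' v = c v := by
      intro v hv
      have h1 := congrFun hup v
      rw [Function.update_of_ne hv, Function.update_of_ne hv] at h1
      exact h1
    rw [hRc, Equiv.Perm.mul_apply, hFm, hFm]
    have h1 : (c' u)⁻¹ (c u x) = (c' u).symm (c u x) := rfl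
    rw [h1]
    have h2 : out u x = step out c u (c u x) := by unfold step; rw [Equiv.symm_apply_apply]
    rw [h2]
    exact ⟨fun h' => hdet c' hD' c hc hrest _ h',
      fun h' => hdet c hc c' hD' (fun v hv => (hrest v hv).symm) _ h'⟩
  let N := {c : V → Equiv.Perm (Fin k) // c ∈ D}
  let Φ : N × Equiv.Perm (Fin k) →
      (V → Equiv.Perm (Fin k)) × {g : Equiv.Perm (Fin k) // ∀ x, g x ∈ F ↔ x ∈ F} := fun z =>
    (Function.update z.1.1 u z.2, ⟨(R (Function.update z.1.1 u 1))⁻¹ * z.1.1 u, hR z.1.1 z.1.2⟩)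
  have hΦ : Function.Injective Φ := by
    rintro ⟨⟨c, hc⟩, σ⟩ ⟨⟨c', hc'⟩, σ'⟩ h
    simp only [Φ, Prod.mk.injEq, Subtype.mk.injEq] at h
    obtain ⟨h1, h2⟩ := h
    have hrest : ∀ v, v ≠ u → c v = c' v := by
      intro v hv
      have h3 := congrFun h1 v
      rw [Function.update_of_ne hv, Function.update_of_ne hv] at h3
      exact h3
    have hσ : σ = σ' := by
      have h3 := congrFun h1 u
      rw [Function.update_self, Function.update_self] at h3
      exact h3
    have hup : Function.update c u (1 : Equiv.Perm (Fin k)) = Function.update c' u 1 := by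
      funext v
      by_cases hv : v = u
      · rw [hv, Function.update_self, Function.update_self]
      · rw [Function.update_of_ne hv, Function.update_of_ne hv]
        exact hrest v hv
    rw [hup] at h2
    have hcu : c u = c' u := mul_left_cancel h2
    have hcc : c = c' := by
      funext v
      by_cases hv : v = u
      · rw [hv]; exact hcu
      · exact hrest v hv
    subst hcc
    subst hσ
    rfl
  have hcard := Nat.card_le_card_of_injective Φ hΦ
  rw [Nat.card_prod, Nat.card_prod, Nat.card_eq_fintype_card (α := Equiv.Perm (Fin k)),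
    Fintype.card_perm, Fintype.card_fin, Nat.card_eq_fintype_card (α := N),
    Nat.card_eq_fintype_card (α := V → Equiv.Perm (Fin k)), Fintype.card_coe] at hcard
  have hst := card_stab' F r hF1 hF2
  set st := Nat.card {g : Equiv.Perm (Fin k) // ∀ x, g x ∈ F ↔ x ∈ F}
  have hfac := Nat.factorial_pos k
  have h6 : D.card * k.choose r * k.factorial
      ≤ Fintype.card (V → Equiv.Perm (Fin k)) * k.factorial := by
    calc D.card * k.choose r * k.factorial = (D.card * k.factorial) * k.choose r := by ring
      _ ≤ (Fintype.card (V → Equiv.Perm (Fin k)) * st) * k.choose r :=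
          Nat.mul_le_mul_right _ hcard
      _ = Fintype.card (V → Equiv.Perm (Fin k)) * (st * k.choose r) := by ring
      _ ≤ Fintype.card (V → Equiv.Perm (Fin k)) * k.factorial :=
          Nat.mul_le_mul_left _ hst
  exact Nat.le_of_mul_le_mul_right h6 hfac

/-- Bad colorings of the first kind: a balanced set splits the edges of some vertex into two parts
of size at least `r`. -/
def TM (r : ℕ) (w : V → ℕ) (out : V → Fin k → V) (c : V → Equiv.Perm (Fin k)) : Prop :=
  ∃ (T : Set V) (u : V), r ≤ (inT out u T).card ∧ (inT out u T).card + r ≤ k ∧ Bal w out c T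

open Classical in
theorem count_TM {w : V → ℕ} (hpos : ∀ v, 0 < w v) (out : V → Fin k → V) (r : ℕ) :
    ((Finset.univ : Finset (V → Equiv.Perm (Fin k))).filter fun c => TM r w out c).card
      * k.choose r
      ≤ (2 ^ Fintype.card V * Fintype.card V) * Fintype.card (V → Equiv.Perm (Fin k)) := by
  have h1 : ((Finset.univ : Finset (V → Equiv.Perm (Fin k))).filter fun c => TM r w out c)
      ⊆ (Finset.univ : Finset (Set V × V)).biUnion fun x =>
        (Finset.univ : Finset (V → Equiv.Perm (Fin k))).filter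
          fun c => (r ≤ (inT out x.2 x.1).card ∧ (inT out x.2 x.1).card + r ≤ k) ∧
            Bal w out c x.1 := by
    intro c hc
    rw [Finset.mem_filter] at hc
    obtain ⟨T, u, ht, ht', hb⟩ := hc.2
    rw [Finset.mem_biUnion]
    refine ⟨(T, u), Finset.mem_univ _, ?_⟩
    rw [Finset.mem_filter]
    exact ⟨Finset.mem_univ _, ⟨ht, ht'⟩, hb⟩
  have h2 : ∀ x : Set V × V, ((Finset.univ : Finset (V → Equiv.Perm (Fin k))).filter
      fun c => (r ≤ (inT out x.2 x.1).card ∧ (inT out x.2 x.1).card + r ≤ k) ∧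
        Bal w out c x.1).card * k.choose r
      ≤ Fintype.card (V → Equiv.Perm (Fin k)) := by
    intro x
    by_cases ht : (r ≤ (inT out x.2 x.1).card ∧ (inT out x.2 x.1).card + r ≤ k)
    · simp only [ht, and_self, true_and]
      exact count_split hpos out x.1 x.2 r ht.1 ht.2
    · simp only [ht, false_and, Finset.filter_false, Finset.card_empty, zero_mul]
      exact Nat.zero_le _
  calc _ ≤ (∑ x : Set V × V, ((Finset.univ : Finset (V → Equiv.Perm (Fin k))).filter
        fun c => (r ≤ (inT out x.2 x.1).card ∧ (inT out x.2 x.1).card + r ≤ k) ∧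
          Bal w out c x.1).card) * k.choose r :=
        Nat.mul_le_mul_right _ ((Finset.card_le_card h1).trans Finset.card_biUnion_le)
    _ = ∑ x : Set V × V, ((Finset.univ : Finset (V → Equiv.Perm (Fin k))).filter
        fun c => (r ≤ (inT out x.2 x.1).card ∧ (inT out x.2 x.1).card + r ≤ k) ∧
          Bal w out c x.1).card * k.choose r := by
        rw [Finset.sum_mul]
    _ ≤ ∑ _x : Set V × V, Fintype.card (V → Equiv.Perm (Fin k)) :=
        Finset.sum_le_sum fun x _ => h2 x
    _ = _ := by
        rw [Finset.sum_const, Finset.card_univ, Fintype.card_prod, Fintype.card_set, smul_eq_mul]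

open Classical in
/-- The edge `e` of `p` has at most `m` parallel edges (including itself). -/
def Low (m : ℕ) (out : V → Fin k → V) (p : V) (e : Fin k) : Prop :=
  (Finset.univ.filter fun i => out p i = out p e).card ≤ m

/-- Bad colorings of the second kind: two different coincidences of colors of low edges. -/
def TL (m : ℕ) (out : V → Fin k → V) (c : V → Equiv.Perm (Fin k)) : Prop :=
  ∃ (u1 : V) (e1 : Fin k) (u2 : V) (e2 : Fin k) (u3 : V) (e3 : Fin k) (u4 : V) (e4 : Fin k),
    Low m out u1 e1 ∧ Low m out u2 e2 ∧ Low m out u3 e3 ∧ Low m out u4 e4 ∧ u1 ≠ u2 ∧ u3 ≠ u4 ∧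
    c u1 e1 = c u2 e2 ∧ c u3 e3 = c u4 e4 ∧ ¬ (u3 = u1 ∧ e3 = e1) ∧ ¬ (u3 = u2 ∧ e3 = e2)

open Classical in
theorem low_of_sgl {m : ℕ} (hm : 1 ≤ m) {out : V → Fin k → V} {p : V} {e : Fin k}
    (h : Sgl out p e) : Low m out p e := by
  unfold Low
  refine le_trans (Finset.card_le_card (t := {e}) ?_) (by simpa using hm)
  intro i hi
  rw [Finset.mem_filter] at hi
  rw [Finset.mem_singleton]
  exact h i hi.2

theorem TII_imp {m : ℕ} (hm : 1 ≤ m) {out : V → Fin k → V} {c : V → Equiv.Perm (Fin k)}
    (h : TII out c) : TL m out c := by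
  obtain ⟨u1, e1, u2, e2, u3, e3, u4, e4, s1, s2, s3, s4, h'⟩ := h
  exact ⟨u1, e1, u2, e2, u3, e3, u4, e4, low_of_sgl hm s1, low_of_sgl hm s2, low_of_sgl hm s3,
    low_of_sgl hm s4, h'⟩

open Classical in
/-- A balanced set with a thick vertex gives a bad coloring of the new kinds. -/
theorem TI_imp {w : V → ℕ} (hpos : ∀ v, 0 < w v) {out : V → Fin k → V} {m : ℕ}
    (hnm : Fintype.card V * m < k) {c : V → Equiv.Perm (Fin k)}
    (h : TI w out c) : TM (m + 1) w out c ∨ TL m out c := by
  obtain ⟨T, u, ht, hb⟩ := h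
  by_cases hmed : ∃ v, m + 1 ≤ (inT out v T).card ∧ (inT out v T).card + (m + 1) ≤ k
  · obtain ⟨v, h1, h2⟩ := hmed
    exact Or.inl ⟨T, v, h1, h2, hb⟩
  right
  push Not at hmed
  -- the minority edges
  let A : V → Finset (Fin k) := fun v =>
    if (inT out v T).card ≤ m then inT out v T else (inT out v T)ᶜ
  have hAcard : ∀ v, (A v).card ≤ m := by
    intro v
    by_cases h1 : (inT out v T).card ≤ m
    · simp only [A, if_pos h1]; exact h1
    · simp only [A, if_neg h1]
      rw [Finset.card_compl, Fintype.card_fin]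
      have := hmed v (by omega)
      omega
  have hAsame : ∀ v i j, i ∉ A v → j ∉ A v → (out v i ∈ T ↔ out v j ∈ T) := by
    intro v i j hi hj
    by_cases h1 : (inT out v T).card ≤ m
    · simp only [A, if_pos h1, mem_inT] at hi hj
      tauto
    · simp only [A, if_neg h1, Finset.mem_compl, mem_inT, not_not] at hi hj
      tauto
  have hAdiff : ∀ v i j, i ∈ A v → j ∉ A v → ¬ (out v i ∈ T ↔ out v j ∈ T) := by
    intro v i j hi hj
    by_cases h1 : (inT out v T).card ≤ m
    · simp only [A, if_pos h1, mem_inT] at hi hj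
      tauto
    · simp only [A, if_neg h1, Finset.mem_compl, mem_inT, not_not] at hi hj
      tauto
  have hAlow : ∀ v i, i ∈ A v → Low m out v i := by
    intro v i hi
    unfold Low
    refine le_trans (Finset.card_le_card ?_) (hAcard v)
    intro j hj
    rw [Finset.mem_filter] at hj
    by_contra hjA
    exact hAdiff v i j hi hjA (by rw [hj.2])
  -- a color which is not used by minority edges
  obtain ⟨a0, ha0⟩ : ∃ a0 : Fin k, ∀ v, (c v).symm a0 ∉ A v := by
    by_contra hcon
    push Not at hcon
    have h1 : (Finset.univ : Finset (Fin k))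
        ⊆ (Finset.univ : Finset V).biUnion fun v => (A v).image (c v) := by
      intro a _
      obtain ⟨v, hv⟩ := hcon a
      rw [Finset.mem_biUnion]
      refine ⟨v, Finset.mem_univ _, ?_⟩
      rw [Finset.mem_image]
      exact ⟨_, hv, Equiv.apply_symm_apply _ _⟩
    have h2 := (Finset.card_le_card h1).trans Finset.card_biUnion_le
    have h3 : ∑ v : V, ((A v).image (c v)).card ≤ ∑ _v : V, m :=
      Finset.sum_le_sum fun v _ => Finset.card_image_le.trans (hAcard v)
    rw [Finset.sum_const, Finset.card_univ, smul_eq_mul] at h3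
    rw [Finset.card_univ, Fintype.card_fin] at h2
    omega
  have hpart : ∀ e, e ∈ A u → ∃ v f, v ≠ u ∧ f ∈ A v ∧ c u e = c v f := by
    intro e he
    by_contra hcon
    push Not at hcon
    have h1 : ∀ q, q ≠ u → (step out c q (c u e) ∈ T ↔ step out c q a0 ∈ T) := by
      intro q hq
      apply hAsame q _ _ _ (ha0 q)
      intro h2
      exact hcon q _ hq h2 (by rw [Equiv.apply_symm_apply])
    have h2 := cmp1 hpos hb u (c u e) a0 h1
    unfold step at h2
    rw [Equiv.symm_apply_apply] at h2
    exact hAdiff u e _ he (ha0 u) h2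
  obtain ⟨e1, e3, he13, he1, he3⟩ : ∃ e1 e3, e1 ≠ e3 ∧ e1 ∈ A u ∧ e3 ∈ A u := by
    obtain ⟨⟨i, j, hij, hi, hj⟩, ⟨i', j', hij', hi', hj'⟩⟩ := ht
    by_cases h1 : (inT out u T).card ≤ m
    · refine ⟨i, j, hij, ?_, ?_⟩
      · simp only [A, if_pos h1, mem_inT]; exact hi
      · simp only [A, if_pos h1, mem_inT]; exact hj
    · refine ⟨i', j', hij', ?_, ?_⟩
      · simp only [A, if_neg h1, Finset.mem_compl, mem_inT]; exact hi'
      · simp only [A, if_neg h1, Finset.mem_compl, mem_inT]; exact hj'
  obtain ⟨v2, e2, hv2, he2, hc2⟩ := hpart e1 he1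
  obtain ⟨v4, e4, hv4, he4, hc4⟩ := hpart e3 he3
  exact ⟨u, e1, v2, e2, u, e3, v4, e4, hAlow u e1 he1, hAlow v2 e2 he2, hAlow u e3 he3,
    hAlow v4 e4 he4, hv2.symm, hv4.symm, hc2, hc4, fun h => he13 h.2.symm,
    fun h => hv2 h.1.symm⟩

open Classical in
/-- The number of low edges. -/
theorem card_low (m : ℕ) (out : V → Fin k → V) :
    ((Finset.univ : Finset (V × Fin k)).filter fun x => Low m out x.1 x.2).card
      ≤ m * (Fintype.card V * Fintype.card V) := by
  set s := (Finset.univ : Finset (V × Fin k)).filter fun x => Low m out x.1 x.2 with hs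
  let f : V × Fin k → V × V := fun x => (x.1, out x.1 x.2)
  have h1 : s.card ≤ m * (s.image f).card := by
    apply Finset.card_le_mul_card_image
    intro y hy
    rw [Finset.mem_image] at hy
    obtain ⟨x, hx, rfl⟩ := hy
    rw [hs, Finset.mem_filter] at hx
    refine le_trans ?_ hx.2
    apply Finset.card_le_card_of_injOn (fun y => y.2)
    · intro y hy
      rw [Finset.mem_coe, Finset.mem_filter] at hy
      simp only [f, Prod.mk.injEq] at hy
      rw [Finset.mem_coe, Finset.mem_filter]
      refine ⟨Finset.mem_univ _, ?_⟩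
      rw [← hy.2.2, hy.2.1]
    · rintro ⟨v, i⟩ hy ⟨v', i'⟩ hy' h
      rw [Finset.mem_coe, Finset.mem_filter] at hy hy'
      simp only [f, Prod.mk.injEq] at hy hy'
      simp only at h
      rw [Prod.mk.injEq]
      exact ⟨by rw [hy.2.1, hy'.2.1], h⟩
  have h2 : (s.image f).card ≤ Fintype.card V * Fintype.card V := by
    refine le_trans (Finset.card_le_univ _) ?_
    rw [Fintype.card_prod]
  exact h1.trans (Nat.mul_le_mul_left _ h2)

open Classical in
theorem count_TL (m : ℕ) (out : V → Fin k → V) :
    ((Finset.univ : Finset (V → Equiv.Perm (Fin k))).filter fun c => TL m out c).card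
      * (k * k - k)
      ≤ (m * (Fintype.card V * Fintype.card V)) ^ 4 * Fintype.card (V → Equiv.Perm (Fin k)) := by
  set s := (Finset.univ : Finset (V × Fin k)).filter fun x => Low m out x.1 x.2 with hs
  let P : ((V × Fin k) × (V × Fin k)) × ((V × Fin k) × (V × Fin k)) →
      (V → Equiv.Perm (Fin k)) → Prop := fun x c =>
    (x.1.1.1 ≠ x.1.2.1 ∧ x.2.1.1 ≠ x.2.2.1 ∧ ¬ (x.2.1.1 = x.1.1.1 ∧ x.2.1.2 = x.1.1.2) ∧
      ¬ (x.2.1.1 = x.1.2.1 ∧ x.2.1.2 = x.1.2.2)) ∧
      (c x.1.1.1 x.1.1.2 = c x.1.2.1 x.1.2.2 ∧ c x.2.1.1 x.2.1.2 = c x.2.2.1 x.2.2.2)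
  have h1 : ((Finset.univ : Finset (V → Equiv.Perm (Fin k))).filter fun c => TL m out c)
      ⊆ ((s ×ˢ s) ×ˢ (s ×ˢ s)).biUnion fun x =>
        (Finset.univ : Finset (V → Equiv.Perm (Fin k))).filter fun c => P x c := by
    intro c hc
    rw [Finset.mem_filter] at hc
    obtain ⟨u1, e1, u2, e2, u3, e3, u4, e4, s1, s2, s3, s4, h12, h34, hc1, hc2, hn1, hn2⟩ := hc.2
    rw [Finset.mem_biUnion]
    refine ⟨(((u1, e1), (u2, e2)), ((u3, e3), (u4, e4))), ?_, ?_⟩
    · simp only [hs, Finset.mem_product, Finset.mem_filter, Finset.mem_univ, true_and]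
      exact ⟨⟨s1, s2⟩, ⟨s3, s4⟩⟩
    · rw [Finset.mem_filter]
      exact ⟨Finset.mem_univ _, ⟨h12, h34, hn1, hn2⟩, hc1, hc2⟩
  have h2 : ∀ x, ((Finset.univ : Finset (V → Equiv.Perm (Fin k))).filter
      fun c => P x c).card * (k * k - k) ≤ Fintype.card (V → Equiv.Perm (Fin k)) := by
    intro x
    by_cases hx : (x.1.1.1 ≠ x.1.2.1 ∧ x.2.1.1 ≠ x.2.2.1 ∧
        ¬ (x.2.1.1 = x.1.1.1 ∧ x.2.1.2 = x.1.1.2) ∧ ¬ (x.2.1.1 = x.1.2.1 ∧ x.2.1.2 = x.1.2.2))
    · refine le_trans (Nat.mul_le_mul_right _ (Finset.card_le_card ?_))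
        (count_pair x.1.1.1 x.1.2.1 x.2.1.1 x.2.2.1 x.1.1.2 x.1.2.2 x.2.1.2 x.2.2.2
          hx.1 hx.2.1 hx.2.2.1 hx.2.2.2)
      intro c hc
      rw [Finset.mem_filter] at hc ⊢
      exact ⟨Finset.mem_univ _, hc.2.2⟩
    · have h3 : ((Finset.univ : Finset (V → Equiv.Perm (Fin k))).filter fun c => P x c) = ∅ := by
        apply Finset.filter_eq_empty_iff.mpr
        intro c _ hc
        exact hx hc.1
      rw [h3, Finset.card_empty, zero_mul]
      exact Nat.zero_le _
  have hs4 : ((s ×ˢ s) ×ˢ (s ×ˢ s)).card ≤ (m * (Fintype.card V * Fintype.card V)) ^ 4 := by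
    rw [Finset.card_product, Finset.card_product]
    calc s.card * s.card * (s.card * s.card) = s.card ^ 4 := by ring
      _ ≤ _ := Nat.pow_le_pow_left (card_low m out) 4
  calc _ ≤ (∑ x ∈ (s ×ˢ s) ×ˢ (s ×ˢ s), ((Finset.univ : Finset (V → Equiv.Perm (Fin k))).filter
        fun c => P x c).card) * (k * k - k) :=
        Nat.mul_le_mul_right _ ((Finset.card_le_card h1).trans Finset.card_biUnion_le)
    _ = ∑ x ∈ (s ×ˢ s) ×ˢ (s ×ˢ s), ((Finset.univ : Finset (V → Equiv.Perm (Fin k))).filter
        fun c => P x c).card * (k * k - k) := by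
        rw [Finset.sum_mul]
    _ ≤ ∑ _x ∈ (s ×ˢ s) ×ˢ (s ×ˢ s), Fintype.card (V → Equiv.Perm (Fin k)) :=
        Finset.sum_le_sum fun x _ => h2 x
    _ = ((s ×ˢ s) ×ˢ (s ×ˢ s)).card * Fintype.card (V → Equiv.Perm (Fin k)) := by
        rw [Finset.sum_const, smul_eq_mul]
    _ ≤ _ := Nat.mul_le_mul_right _ hs4

end poly

/-- Binomial coefficients grow by a factor `16` as long as `17 (j + 1) ≤ k`. -/
theorem choose_growth (i : ℕ) : 17 * (i + 2) ≤ k → 16 ^ i * k.choose 2 ≤ k.choose (i + 2) := by
  induction i with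
  | zero => intro _; simp
  | succ i ih =>
    intro h
    have h1 := ih (by omega)
    have h2 : k.choose (i + 2 + 1) * (i + 2 + 1) = k.choose (i + 2) * (k - (i + 2)) :=
      Nat.choose_succ_right_eq k (i + 2)
    have h3 : 16 * (i + 2 + 1) ≤ k - (i + 2) := by omega
    have h4 : 16 * k.choose (i + 2) * (i + 2 + 1) ≤ k.choose (i + 2 + 1) * (i + 2 + 1) := by
      rw [h2]
      calc 16 * k.choose (i + 2) * (i + 2 + 1) = k.choose (i + 2) * (16 * (i + 2 + 1)) := by ring
        _ ≤ _ := Nat.mul_le_mul_left _ h3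
    have h5 : 16 * k.choose (i + 2) ≤ k.choose (i + 2 + 1) :=
      Nat.le_of_mul_le_mul_right h4 (by omega)
    calc 16 ^ (i + 1) * k.choose 2 = 16 * (16 ^ i * k.choose 2) := by ring
      _ ≤ 16 * k.choose (i + 2) := Nat.mul_le_mul_left _ h1
      _ ≤ k.choose (i + 2 + 1) := h5

theorem pow16 (i : ℕ) : 2 * (2 ^ (i + 4) * (i + 4)) ≤ 16 ^ (i + 2) := by
  induction i with
  | zero => norm_num
  | succ i ih =>
    calc 2 * (2 ^ (i + 1 + 4) * (i + 1 + 4)) = 2 * (2 * (2 ^ (i + 4) * (i + 5))) := by ring
      _ ≤ 2 * (2 * (2 ^ (i + 4) * (2 * (i + 4)))) := by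
          apply Nat.mul_le_mul_left
          apply Nat.mul_le_mul_left
          apply Nat.mul_le_mul_left
          omega
      _ = 4 * (2 * (2 ^ (i + 4) * (i + 4))) := by ring
      _ ≤ 16 * 16 ^ (i + 2) := Nat.mul_le_mul (by norm_num) ih
      _ = 16 ^ (i + 1 + 2) := by ring

open Classical in
/-- The conjectured bound for `k ≥ n ^ 12`. -/
theorem poly [Fintype V] (hk : 0 < k) (out : V → Fin k → V) (hp : Primitive out)
    (hkn : Fintype.card V ^ 12 ≤ k) : 1 - 1 / (k : ℝ) ≤ ratio out := by
  by_cases h3 : Fintype.card V ≤ 3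
  · exact three hk out hp h3
  obtain ⟨i, hi⟩ : ∃ i, Fintype.card V = i + 4 := ⟨Fintype.card V - 4, by omega⟩
  have hV : Nonempty V := Fintype.card_pos_iff.mp (by omega)
  set n := Fintype.card V with hn
  set m := i + 3 with hm
  have hnm' : n = m + 1 := by omega
  have h4n : 4 ≤ n := by omega
  -- sizes
  have hA : n * n ≤ n ^ 12 := by
    calc n * n = n ^ 2 := by ring
      _ ≤ n ^ 12 := Nat.pow_le_pow_right (by omega) (by norm_num)
  have hB : 17 * n ≤ n ^ 12 := by
    calc 17 * n ≤ 4 ^ 11 * n := Nat.mul_le_mul_right _ (by norm_num)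
      _ ≤ n ^ 11 * n := Nat.mul_le_mul_right _ (Nat.pow_le_pow_left h4n 11)
      _ = n ^ 12 := by ring
  have hC : (m * (n * n)) ^ 4 + 2 ≤ n ^ 12 := by
    have h1 : m ^ 4 + 1 ≤ n ^ 4 := by
      have : m ^ 4 < n ^ 4 := Nat.pow_lt_pow_left (by omega) (by norm_num)
      omega
    have h2 : 2 ≤ n ^ 8 := by
      calc 2 ≤ 4 ^ 8 := by norm_num
        _ ≤ n ^ 8 := Nat.pow_le_pow_left h4n 8
    calc (m * (n * n)) ^ 4 + 2 ≤ m ^ 4 * n ^ 8 + n ^ 8 := by
          have : (m * (n * n)) ^ 4 = m ^ 4 * n ^ 8 := by ring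
          omega
      _ = (m ^ 4 + 1) * n ^ 8 := by ring
      _ ≤ n ^ 4 * n ^ 8 := Nat.mul_le_mul_right _ h1
      _ = n ^ 12 := by ring
  have hk3 : 3 ≤ k := by omega
  have hkV : Fintype.card V < k := by
    have : n < n * n := by nlinarith
    omega
  have hnm : Fintype.card V * m < k := by
    have : n * m < n * n := Nat.mul_lt_mul_of_pos_left (by omega) (by omega)
    calc Fintype.card V * m = n * m := by rw [hn]
      _ < n * n := this
      _ ≤ k := hA.trans hkn
  obtain ⟨w, hne, hw⟩ := exists_stationary out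
  have hpos := pos_of out hp.1 w hw hne
  apply ratio_ge hk
  rw [Nat.card_eq_fintype_card, Fintype.card_subtype]
  have hN : Fintype.card (V → Equiv.Perm (Fin k)) = k.factorial ^ Fintype.card V := by
    rw [Fintype.card_fun, Fintype.card_perm, Fintype.card_fin]
  rw [← hN]
  by_cases hbad : ∀ c : V → Equiv.Perm (Fin k), ¬ Synchronizing out c →
      TM (m + 1) w out c ∨ TL m out c
  · have h1 : ((Finset.univ : Finset (V → Equiv.Perm (Fin k))).filter
        fun c => ¬ Synchronizing out c)
        ⊆ ((Finset.univ : Finset (V → Equiv.Perm (Fin k))).filter fun c => TM (m + 1) w out c)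
          ∪ ((Finset.univ : Finset (V → Equiv.Perm (Fin k))).filter fun c => TL m out c) := by
      intro c hc
      rw [Finset.mem_filter] at hc
      rw [Finset.mem_union, Finset.mem_filter, Finset.mem_filter]
      rcases hbad c hc.2 with h | h
      · exact Or.inl ⟨Finset.mem_univ _, h⟩
      · exact Or.inr ⟨Finset.mem_univ _, h⟩
    have h2 := (Finset.card_le_card h1).trans (Finset.card_union_le _ _)
    have h3' := count_TM hpos out (m + 1)
    have h4 := count_TL m out
    rw [← hn] at h3' h4
    set N := Fintype.card (V → Equiv.Perm (Fin k))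
    set a := ((Finset.univ : Finset (V → Equiv.Perm (Fin k))).filter
      fun c => TM (m + 1) w out c).card
    set b := ((Finset.univ : Finset (V → Equiv.Perm (Fin k))).filter fun c => TL m out c).card
    set q := ((Finset.univ : Finset (V → Equiv.Perm (Fin k))).filter
      fun c => ¬ Synchronizing out c).card
    have h6 : k * k - k = k * (k - 1) := (Nat.mul_sub_one k k).symm
    have h7 : k * k - k = 2 * k.choose 2 := by
      rw [Nat.choose_two_right]
      have h6 : 2 ∣ k * (k - 1) := (Nat.even_mul_pred_self k).two_dvd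
      rw [Nat.mul_div_cancel' h6, Nat.mul_sub_one]
    have ha : a * (k * k - k) ≤ N := by
      have h8 := choose_growth (k := k) (i + 2) (by omega)
      have h9 := pow16 i
      have h10 : i + 2 + 2 = m + 1 := by omega
      rw [h10] at h8
      have hi4 : i + 4 = n := by omega
      rw [hi4] at h9
      have hpos2 : 0 < 2 ^ n * n := by positivity
      have h11 : a * (k * k - k) * (2 ^ n * n) ≤ N * (2 ^ n * n) := by
        calc a * (k * k - k) * (2 ^ n * n) = a * (2 * (2 ^ n * n) * k.choose 2) := by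
              rw [h7]; ring
          _ ≤ a * (16 ^ (i + 2) * k.choose 2) :=
              Nat.mul_le_mul_left _ (Nat.mul_le_mul_right _ h9)
          _ ≤ a * k.choose (m + 1) := Nat.mul_le_mul_left _ h8
          _ ≤ 2 ^ n * n * N := h3'
          _ = N * (2 ^ n * n) := by ring
      exact Nat.le_of_mul_le_mul_right h11 hpos2
    have h5 : q * (k * k - k) ≤ N * ((m * (n * n)) ^ 4 + 1) := by
      calc q * (k * k - k) ≤ (a + b) * (k * k - k) := Nat.mul_le_mul_right _ h2
        _ = a * (k * k - k) + b * (k * k - k) := by ring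
        _ ≤ N + (m * (n * n)) ^ 4 * N := Nat.add_le_add ha h4
        _ = N * ((m * (n * n)) ^ 4 + 1) := by ring
    rw [h6] at h5
    have h12 : q * k * (k - 1) ≤ N * (k - 1) := by
      calc q * k * (k - 1) = q * (k * (k - 1)) := by ring
        _ ≤ N * ((m * (n * n)) ^ 4 + 1) := h5
        _ ≤ N * (k - 1) := Nat.mul_le_mul_left _ (by omega)
    exact Nat.le_of_mul_le_mul_right h12 (by omega)
  · push Not at hbad
    obtain ⟨c, hc, hTM, hTL⟩ := hbad
    have hTI : ¬ TI w out c := fun h => (TI_imp hpos hnm h).elim hTM hTL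
    have hTII : ¬ TII out c := fun h => hTL (TII_imp (by omega) h)
    obtain ⟨u, v, e, f, huv, hall⟩ := rigid hk3 hkV hpos hp hw hc hTI hTII
    have h1 := count_one (Finset.univ : Finset (V → Equiv.Perm (Fin k))) u v e f huv
      (fun c _ σ => Finset.mem_univ _)
    rw [Finset.card_univ] at h1
    refine le_trans (Nat.mul_le_mul_right _ (Finset.card_le_card ?_)) h1
    intro c' hc'
    rw [Finset.mem_filter] at hc' ⊢
    exact ⟨Finset.mem_univ _, hall c' hc'.2⟩

end Pool.Agent.Helper695.SR
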